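import Pool.Agent.Helper64.IG.Trees

/-!
# Goals of the project IG (MP_d01c92_ag.BranchWidth)

Every `Prop` below is a packet; its docstring has the complete proof. All fields are arbitrary.
-/

open scoped BigOperators

universe u v

namespace Pool.Agent.Helper64.IG

open Module

/-! ## Part 1: trees and gap embeddings -/

/-- TR (transitivity of gap embeddings).
PROOF. (a) `Emb R c c'` implies `c.lab = c'.lab`: induction on the derivation (leaf, node: clear;
skip: `Step t f` gives `f.lab = t.lab`, as `Dn k a f` gives `f.lab = k`).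
(b) If `Step t f`, `k < t.lab` and `Dn k f g` then `Dn k t g` (the nodes strictly between `t` and
`f` have labels `> t.lab > k`, and `f.lab = t.lab > k`; induction on `Dn`).
(c) If `Emb R c c'` and `Dn k c f` then there is `f'` with `Dn k c' f'` and `Emb R f f'`: induction
on the derivation of `Emb R c c'`. If `c.lab = k` and `f = c`, take `f' = c'` (labels agree by
(a)). Otherwise `c = node l x a b` with `k < l` and `Dn k a f` or `Dn k b f`; in the node case use
the induction hypothesis for the child and `Dn.left`/`Dn.right`; in the skip case (`Step c' g`,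
`Emb c g`) the induction hypothesis gives `Dn k g f'` and (b) gives `Dn k c' f'`.
(d) Now the statement, by induction on `v.size`, for all `s t`: if `Emb S t v` is a skip (`Step v g`,
`Emb S t g`), then `Emb Q s g` by induction, and skip. If it is a leaf, `t = leaf`, and `Emb R s t`
must be a leaf (a leaf has no `Step`). If it is a node, `t = node k y c d`, `v = node k z c' d'`,
and `Emb R s t` is a node: use induction for the children; or a skip: `Step t f`, `Emb R s f`,
say `Dn k c f`; by (c) there is `f'` with `Dn k c' f'`, `Emb S f f'`, so `Step v f'`, and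
`Emb Q s f'` by induction (`f'.size < v.size`), then skip. -/
def G_TR : Prop :=
  ∀ (X Y Z : Type u) (R : X → Y → Prop) (S : Y → Z → Prop) (Q : X → Z → Prop),
    (∀ x y z, R x y → S y z → Q x z) → ∀ (s : Tr X) (t : Tr Y) (v : Tr Z),
    Tr.Emb R s t → Tr.Emb S t v → Tr.Emb Q s v

/-- TW (Friedman's gap theorem for our binary trees, by iterated minimal bad sequences; `G_TR.{0}`
may be an extra hypothesis). Everything below is for `Emb R`; `pwo` = `Set.PartiallyWellOrderedOn`.
CLAIM(k): let `N` and `Z` be sets of trees with all labels `≤ w`, `Z` pwo, such that every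
`t ∈ N` has `k ≤ t.lab`, and every child `c` of a `t ∈ N` is in `N` if `k ≤ c.lab` and in `Z` if
`c.lab < k`. Then `N` is pwo.
PROOF by induction on `w + 1 - k` (if `k > w`, `N` is empty). Suppose `N` is not pwo. As there are
finitely many labels, some `N ∩ {lab = k'}` (`k ≤ k' ≤ w`) is not pwo; take `k'` minimal, so that
`N ∩ {lab < k'}` is pwo (finite union). Take a minimal bad sequence `x_0, x_1, …` in
`N ∩ {lab = k'}` w.r.t. `size` (Mathlib: `Set.PartiallyWellOrderedOn.exists_min_bad_of_exists_bad`).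
Let `Z1 = {z | ∃ i, Step (x_i) z}`; it is contained in `N ∩ {lab = k'}` (all trees strictly between
have labels `> k' ≥ k`, so they are in `N`). `Z1` is pwo: a bad sequence `z_0, z_1, …` in `Z1` with
`Step (x_{i(j)}) z_j`; we may pass to a subsequence with `i(0) ≤ i(j)` for all `j` (drop an initial
part: choose `j` with `i(j)` minimal and start there); then `x_0, …, x_{i(0)-1}, z_0, z_1, …` is bad
(`Emb x_a z_j` with `a < i(0) ≤ i(j)` would give `Emb x_a x_{i(j)}` by `skip`), and
`size z_0 < size x_{i(0)}`, contradicting the minimality of `x`.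
Let `N' = {y | k' < y.lab and y is reached from some x_i by going down (at least one step) through
trees of labels > k'}` and `Z' = Z ∪ (N ∩ {lab < k'}) ∪ Z1`, pwo. Children of members of `N'` with
label `> k'` are in `N'`; those with label `= k'` are in `Z1`, those with label in `[k, k')` in
`N ∩ {lab < k'}`, those with label `< k` in `Z` (members of `N'` are in `N`). By the induction
hypothesis for `k' + 1`, `N'` is pwo. So all children of all `x_i` lie in the pwo set `N' ∪ Z'`.
If infinitely many `x_i` are leaves, two of them `i < j` satisfy `R` on decorations (same label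
`k'`), so `Emb x_i x_j`, contradiction. Otherwise pass to a subsequence of nodes
`node k' (d_i) (a_i) (b_i)`; by the wqo of `R` and the pwo of the children (product of three; `Emb R`
is transitive) there are `i < j` with `R d_i d_j`, `Emb a_i a_j`, `Emb b_i b_j`, so `Emb x_i x_j`.
Contradiction. Finally apply CLAIM(0) with `N` = all trees with labels `≤ w`, `Z = ∅`. -/
def G_TW : Prop :=
  ∀ (X : Type) (R : X → X → Prop), (∀ x, R x x) → (∀ x y z, R x y → R y z → R x z) →
    (∀ f : ℕ → X, ∃ i j, i < j ∧ R (f i) (f j)) → ∀ (w : ℕ) (f : ℕ → Tr X),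
    (∀ i, (f i).LabLe w) → ∃ i j, i < j ∧ Tr.Emb R (f i) (f j)

/-- EH (an embedding of decorated skeletons gives a morphism).
PROOF. Prove by induction on the derivation of `Emb R s t`: for all `σ τ m m'` with
`s = σ.deco m`, `t = τ.deco m'` there is `φ : ℕ → ℕ` with `φ a < τ.size` and `R (m a) (m' (φ a))`
for `a < σ.size`, and `Emb Eq (σ.deco φ) (τ.deco id)`. Leaf: `φ = 0`. Node: `σ = node k () a b`,
`τ = node k () c d`; from `φ_a, φ_b` define `φ 0 = 0`, `φ (1 + n) = 1 + φ_a n` for `n < a.size`,
`φ (1 + a.size + n) = 1 + c.size + φ_b n`; use naturality (`Emb Eq` is preserved under applying the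
same map to all decorations, `(σ.deco m).map g = σ.deco (g ∘ m)`, and `deco` only depends on the
values at `n < size`). Skip: `Step (τ.deco m') f`: then `f = τ'.deco (fun n => m' (o + n))` and
`Step (τ.deco id) (τ'.deco (fun n => o + n))` for some `τ'`, `o` with `o + τ'.size ≤ τ.size`
(induction on `Dn`); take `φ = o + φ'`. -/
def G_EH : Prop :=
  ∀ (X Y : Type) (R : X → Y → Prop) (σ τ : Tr Unit) (m : ℕ → X) (m' : ℕ → Y),
    Tr.Emb R (σ.deco m) (τ.deco m') → ∃ φ ∈ Hom σ τ, ∀ a : Fin σ.size, R (m a) (m' (φ a))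

/-- HM (morphisms are strictly monotone).
PROOF. By induction on the derivation of `Emb Eq s t`: for all `σ τ φ o` with `s = σ.deco φ` and
`t = τ.deco (fun n => o + n)`: for `a < σ.size`, `o ≤ φ a < o + τ.size`, and `φ a < φ b` for
`a < b < σ.size`. Leaf: `φ 0 = o`. Node: `φ 0 = o`, the indices `1 + n` (`n < a.size`) go to
`[o + 1, o + 1 + c.size)` and the indices `1 + a.size + n` to `[o + 1 + c.size, o + τ.size)`,
monotonically by induction. Skip: a subtree occupies an interval of preorder numbers. -/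
def G_HM : Prop :=
  ∀ (σ τ : Tr Unit) (φ : Fin σ.size → Fin τ.size), φ ∈ Hom σ τ → StrictMono φ

/-- NAT (naturality; eight easy facts, all by induction on the tree or on the derivation). -/
def G_NAT : Prop :=
  (∀ (Y Z : Type u) (σ : Tr Unit) (m : ℕ → Y) (g : Y → Z),
    (σ.deco m).map g = σ.deco (fun n => g (m n))) ∧
  (∀ (Z : Type u) (σ : Tr Unit) (m : ℕ → ℕ) (g : ℕ → Z),
    (σ.deco m).map g = σ.deco (fun n => g (m n))) ∧
  (∀ (Y : Type u) (σ : Tr Unit) (m m' : ℕ → Y), (∀ n < σ.size, m n = m' n) →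
    σ.deco m = σ.deco m') ∧
  (∀ (Z : Type u) (g : ℕ → Z) (s t : Tr ℕ), Tr.Emb (fun a b : ℕ => a = b) s t →
    Tr.Emb (fun a b : Z => a = b) (s.map g) (t.map g)) ∧
  (∀ (K : Type u) [Field K] (W : Type) (t : Tr (W → K)),
    ∃ V : Fin (t.map fun _ => ()).size × W → K, t = (t.map fun _ => ()).deco (dat V)) ∧
  (∀ (Y : Type u) (σ : Tr Unit) (m : ℕ → Y), (σ.deco m).leaves = σ.leaves ∧
    (σ.deco m).size = σ.size ∧ (σ.deco m).lab = σ.lab ∧ ∀ w, (σ.deco m).LabLe w ↔ σ.LabLe w) ∧
  (∀ (Y : Type u) (t : Tr Y), (t.map fun _ => ()).leaves = t.leaves ∧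
    (t.map fun _ => ()).size = t.size ∧ (t.map fun _ => ()).lab = t.lab ∧
    ∀ w, (t.map fun _ => ()).LabLe w ↔ t.LabLe w) ∧
  (∀ (Y : Type u) (t : Tr Y), Tr.Emb (fun a b : Y => a = b) t t)

/-! ## Part 2: equivariant Groebner noetherianity -/

/-- GB. `I j σ` is increasing in `j` and stable under the `Hm`; then it stabilizes uniformly.
PROOF. Choose a linear order of `V` (via `V ≃ Fin d`), order `Fin N × V` lexicographically, and
compare exponents in `Fin N × V →₀ ℕ` lexicographically (e.g. `MonomialOrder.lex`; or define the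
leading exponent of `f ≠ 0` as the maximum of its support). This is a well-order compatible with
addition, and for `φ` strictly monotone the map `Finsupp.mapDomain (Prod.map φ id)` preserves the
order strictly (the first index where two exponents differ is mapped to the first index where the
images differ; outside the image both are `0`); so `lead (rename f) = mapDomain (lead f)` with the
same leading coefficient. Suppose the conclusion fails: for every `j0` there are `j > j0` and `σ`
with `I j0 σ ≠ I j σ`. Build `j_0 < j_1 < …` and `σ_i` with `I (j_i) σ_i ≠ I (j_{i+1}) σ_i`. Let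
`f_i ∈ I (j_{i+1}) σ_i \ I (j_i) σ_i` have minimal leading exponent `e_i`. The hypothesis on
sequences, applied to `(σ_i, e_i)`, gives `i < i'` and `φ ∈ Hm σ_i σ_{i'}` with
`e_i (a, v) ≤ e_{i'} (φ a, v)` for all `a, v`, i.e. `mapDomain e_i ≤ e_{i'}`. Put
`g = f_{i'} - c x^(e_{i'} - mapDomain e_i) rename f_i` with `c` cancelling the leading terms. As
`f_i ∈ I (j_{i+1}) σ_i ≤ I (j_{i'}) σ_i`, we get `rename f_i ∈ I (j_{i'}) σ_{i'}`, so
`g ∈ I (j_{i'+1}) σ_{i'} \ I (j_{i'}) σ_{i'}`, in particular `g ≠ 0`, and its leading exponent is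
smaller than `e_{i'}`. Contradiction. -/
def G_GB : Prop :=
  ∀ (K : Type u) [Field K] (S V : Type) [Fintype V] (N : S → ℕ)
    (Hm : ∀ σ τ : S, Set (Fin (N σ) → Fin (N τ))),
    (∀ σ τ φ, φ ∈ Hm σ τ → StrictMono φ) →
    (∀ (s : ℕ → S) (e : ∀ i, Fin (N (s i)) → V → ℕ), ∃ i j, i < j ∧ ∃ φ ∈ Hm (s i) (s j),
      ∀ a v, e i a v ≤ e j (φ a) v) →
    ∀ I : ℕ → ∀ σ : S, Ideal (MvPolynomial (Fin (N σ) × V) K),
    (∀ j σ, I j σ ≤ I (j + 1) σ) →
    (∀ j σ τ φ, φ ∈ Hm σ τ → ∀ f ∈ I j σ, MvPolynomial.rename (Prod.map φ id) f ∈ I j τ) →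
    ∃ j0, ∀ j, j0 ≤ j → ∀ σ, I j σ = I j0 σ

/-! ## Part 3: evaluation of tree tensor networks -/

/-- LA (gap embedding into a good tree = slicing).
PROOF by induction on the derivation of `Emb Eq s t` (subtrees of good trees are good). Leaf:
`pat = [none]`. Node: `pat = pat_a ++ pat_b`; `fill (pat_a ++ pat_b) bs =
fill pat_a (bs.take a.leaves) ++ fill pat_b (bs.drop a.leaves)`, the first part has length
`c.leaves` (length of `fill pat bs` is `pat.length` if `bs.length = pat.count none`). Skip:
`Step t f`, `Emb s f` with pattern `pat_f`; `Good t` for `e = t` gives `sl, sr` with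
`ev t α (sl ++ cs ++ sr) = ev f α cs`; `pat = sl.map some ++ pat_f ++ sr.map some`. -/
def G_LA : Prop :=
  ∀ (K : Type u) [Field K] (w : ℕ) (s t : Tr (Var w → K)), Good t →
    Tr.Emb (fun a b : Var w → K => a = b) s t →
    ∃ pat : List (Option Bool), pat.length = t.leaves ∧ pat.count none = s.leaves ∧
      ∀ (α : Fin (2 ^ w)) (bs : List Bool), bs.length = s.leaves →
        ev w s α bs = ev w t α (fill pat bs)

/-- SL (closure under one-bit slices implies closure under patterns).
PROOF by induction on the number of `some`s in `pat`. If there is none, `fill pat bs = bs` when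
`bs.length = pat.length`, and the new function is `z`. Otherwise let the first `some c` be at
position `i`: `pat = replicate i none ++ some c :: pat'`, and with
`pat1 = replicate i none ++ pat'` and `z1 = fun b => if b.length = m - 1 then
z (b.take i ++ c :: b.drop i) else 0`, `z1 ∈ Y (m - 1)` and `z1 (fill pat1 bs) = z (fill pat bs)`
for `bs.length = pat.count none`. -/
def G_SL : Prop :=
  ∀ (K : Type u) [Field K] (Y : ℕ → Set (List Bool → K)),
    (∀ m z b, z ∈ Y m → b.length ≠ m → z b = 0) →
    (∀ (m i : ℕ) (c : Bool) (z : List Bool → K), i ≤ m → z ∈ Y (m + 1) →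
      (fun b => if b.length = m then z (b.take i ++ c :: b.drop i) else 0) ∈ Y m) →
    ∀ (pat : List (Option Bool)) (z : List Bool → K), z ∈ Y pat.length →
      (fun bs => if bs.length = pat.count none then z (fill pat bs) else 0) ∈ Y (pat.count none)

/-- PE (the contraction is polynomial in the decorations).
PROOF. First for all decorations `ν : ℕ → Var w → K`: there is
`P : MvPolynomial (ℕ × Var w) K` with `eval (fun q => ν q.1 q.2) P = ev w (σ.deco ν) α b` for all
`ν`, by induction on `σ`: leaf: `X (0, α, zi, zi, e)` if `b = [e]`, else `0`; node: sum over `β, γ`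
of `X (0, α, β, γ, false)` times the two polynomials of the children with renamed variables
(`n ↦ 1 + n`, `n ↦ 1 + a.size + n`). Then substitute: `X (n, v) ↦ X (⟨n, _⟩, v)` if `n < σ.size`,
else `0`. -/
def G_PE : Prop :=
  ∀ (K : Type u) [Field K] (w : ℕ) (σ : Tr Unit) (α : Fin (2 ^ w)) (b : List Bool),
    ∃ P : MvPolynomial (Fin σ.size × Var w) K, ∀ V : Fin σ.size × Var w → K,
      MvPolynomial.eval V P = ev w (σ.deco (dat V)) α b

/-- SG (rearranging the positions of the tensor of an alternating form).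
PROOF. `sel (ρ.map L.get) b' = (sel ρ b').map L.get`. With `b' = ρ.map (fun i => b.getD i false)`,
`sel ρ b' = ρ.filter (fun i => b.getD i false)`, a nodup list whose members are exactly the `i` with
`b_i = true`, and `sel L b = (the same set, sorted increasingly).map L.get`. So the statement
follows from: for a nodup list `r` of members of `Fin m` with increasing rearrangement `s`,
`ω (r.map L.get) = (-1)^(inv r) ω (s.map L.get)`, where `(-1)^(inv r) = sgnl r (all true)`, i.e.
`inv (i :: r) = #{j ∈ r | j < i} + inv r`. Induction on `r`: `s(i :: r)` is obtained by inserting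
`i` in `s(r)` after the `#{j ∈ r | j < i}` smaller members, which costs so many adjacent swaps
(swapping two adjacent entries changes the sign of an alternating `ω`). Then the two signs
`sgnl * sgnl = 1`. (`sgnl ρ b' = sgnl (sel ρ b') (all true)`.) -/
def G_SG : Prop :=
  ∀ (K : Type u) [Field K] (I : Type v) (p : ℕ) (ω : (Fin p → I) → K),
    (∀ (a : Fin p → I) (π : Equiv.Perm (Fin p)),
      ω (a ∘ π) = ((Equiv.Perm.sign π : ℤ) : K) * ω a) →
    ∀ (m : ℕ) (L : Fin m → I) (ρ : List (Fin m)), ρ.Nodup → ρ.length = m →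
      iact ρ (ft ω (ρ.map L)) = ft ω (List.ofFn L)

/-! ## Part 4: linear algebra of Plücker tensors -/

/-- SPI (span invariance).
PROOF (first half; the second is the mirror image). Put `D = span {Y ↦ dl (sel F S ++ C ++ Y)}`.
(a) `dl (A ++ x :: y :: B) = - dl (A ++ y :: x :: B)`, hence for a permutation `X'` of `X` there is
a sign `ε` with `dl (X ++ Y) = ε dl (X' ++ Y)` for all `Y` (induction on `List.Perm` in the form:
for all `A B`, `dl (A ++ X ++ B) = ε dl (A ++ X' ++ B)`); a list with a repeated member has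
`dl = 0`. (b) If all members of `X` are in `F ++ C` then `Y ↦ dl (X ++ C ++ Y)` is in `D`: if a
member of `X` is in `C`, or `X` has a repeated member, it is `0`; otherwise `X` is a permutation of
some `sel F S` (choose for each member of `X` one index in `F`; different members have different
indices). (c) For all `X1, X2` with the members of `X1` in `F ++ C` and those of `X2` in the span,
`Y ↦ dl (X1 ++ X2 ++ C ++ Y)` is in `D`: induction on `X2`; for `X2 = v :: X2'` use
`Submodule.span_induction` on `v`: the function is linear in `v` (linearity of the determinant in a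
column), and for `v ∈ F ++ C` replace `X1` by `X1 ++ [v]`. -/
def G_SPI : Prop :=
  ∀ (K : Type u) [Field K] (p : ℕ) (F C X : List (Fin p → K)),
    (∀ v ∈ X, v ∈ Submodule.span K {u | u ∈ F ++ C}) →
    ((fun Y => dl (X ++ C ++ Y)) ∈ Submodule.span K {g : List (Fin p → K) → K |
      ∃ S : List Bool, S.length = F.length ∧ g = fun Y => dl (sel F S ++ C ++ Y)}) ∧
    ((fun Y => dl (Y ++ C ++ X)) ∈ Submodule.span K {g : List (Fin p → K) → K |
      ∃ S : List Bool, S.length = F.length ∧ g = fun Y => dl (Y ++ C ++ sel F S)})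

/-- PAIR (the pairing for a basis).
PROOF. Write `I = I1 ++ I2` (`I1` on `u0`, `I2` on `W`), `J = J2 ++ J1` (`J2` on `W`, `J1` on `v0`).
If `dl (sel (u0 ++ W) I ++ C ++ sel (W ++ v0) J) ≠ 0` then no member of `W` is selected twice and
the total length is `p = u0.length + W.length + C.length + v0.length`, so `I1`, `J1` are all true
and `I2 = J2.map not`; conversely then the list is a permutation of the basis `u0 ++ W ++ C ++ v0`,
so `dl ≠ 0` (`dl` of a basis is nonzero; permuting changes it by a sign). Hence the functions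
`g_I : J ↦ dl (…)` vanish unless `I = true… ++ I2`, and for each of the `2^W.length` such `I` the
function `g_I` is nonzero at exactly one `J`, different for different `I`. So these are linearly
independent and span: the dimension is `2 ^ W.length`. -/
def G_PAIR : Prop :=
  ∀ (K : Type u) [Field K] (p : ℕ) (u0 W C v0 : List (Fin p → K)),
    LinearIndependent K (u0 ++ W ++ C ++ v0).get → (u0 ++ W ++ C ++ v0).length = p →
    finrank K (Submodule.span K {g : List Bool → K | ∃ I : List Bool,
      I.length = (u0 ++ W).length ∧ g = fun J => if J.length = (W ++ v0).length then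
        dl (sel (u0 ++ W) I ++ C ++ sel (W ++ v0) J) else 0}) = 2 ^ W.length

/-- F2 (rank of the pairing; extra hypotheses `G_SPI`, `G_PAIR`).
PROOF. Let `VF = span (F ++ C)`, `VB = span (C ++ B)`, `VF + VB = K^p`, so
`dim (VF ∩ VB) = rkl (F ++ C) + rkl (C ++ B) - p`. Extend the independent list `C` by `W` to a basis
of `VF ∩ VB`, `C ++ W` by `u0` to a basis of `VF` and by `v0` to a basis of `VB`; then
`u0 ++ W ++ C ++ v0` is a basis of `K^p` and `W.length = rkl (F ++ C) + rkl (C ++ B) - p - C.length`.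
For lists `F, B` consider the matrix `M(F,B)` with entries `dl (sel F bs ++ C ++ sel B S)` indexed
by the bit lists `bs`, `S` of lengths `F.length`, `B.length`. The span in the statement has
dimension `rank M(F,B)` (column space). By the second half of SPI (both directions: `B` and
`B' = W ++ v0` span the same space together with `C`) the column spaces of `M(F,B)` and `M(F,B')`
are equal; `rank` = dimension of the row space (`Matrix.rank_transpose`), and by the first half of
SPI the row spaces of `M(F,B')` and `M(F',B')` with `F' = u0 ++ W` are equal; PAIR computes the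
last. (A linear map sends spans to spans: apply the evaluation map
`h ↦ (fun bs => if bs.length = F.length then h (sel F bs) else 0)` to the SPI spans.) -/
def G_F2 : Prop :=
  ∀ (K : Type u) [Field K] (p : ℕ) (F C B : List (Fin p → K)),
    LinearIndependent K C.get → rkl (F ++ C ++ B) = p →
    finrank K (Submodule.span K {g : List Bool → K | ∃ S : List Bool, S.length = B.length ∧
      g = fun bs => if bs.length = F.length then dl (sel F bs ++ C ++ sel B S) else 0}) =
      2 ^ (rkl (F ++ C) + rkl (C ++ B) - C.length - p)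

/-- WIN (dimension of windows and of their slices; extra hypothesis `G_F2`).
PROOF. First half. `slc F.length sl sr` maps the generator given by `xs, zs` to the function
`bs ↦ c * plu (l1 ++ A1 ++ F ++ A2 ++ l2) (xs ++ sl ++ bs ++ sr ++ zs)
= c * dl (sel l1 xs ++ C1 ++ sel F bs ++ C2 ++ sel l2 zs)` (for `bs.length = F.length`), with
`C1 = sel A1 sl`, `C2 = sel A2 sr`. If it is nonzero at `bs`, the length of `sel F bs` is
`p - (lengths of the others)`, so moving blocks gives `= ε c * dl (sel F bs ++ (C1 ++ C2) ++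
sel (l1 ++ l2) (xs ++ zs))` with a sign `ε` depending only on `xs, zs` (if the total length is not
`p` both sides vanish). As `c ε ≠ 0` and `S = xs ++ zs` runs over all bit lists of length
`(l1 ++ l2).length`, the span is the one of `G_F2` with `C = C1 ++ C2`, `B = l1 ++ l2`.
Second half: the first half with `A1 = A2 = sl = sr = []` (then `slc` is the identity on `Usp`),
`rkl [] = 0`. -/
def G_WIN : Prop :=
  ∀ (K : Type u) [Field K] (p : ℕ) (c : K), c ≠ 0 →
    (∀ (l1 A1 F A2 l2 : List (Fin p → K)) (sl sr : List Bool),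
      sl.length = A1.length → sr.length = A2.length →
      LinearIndependent K (sel A1 sl ++ sel A2 sr).get →
      rkl (F ++ (sel A1 sl ++ sel A2 sr) ++ (l1 ++ l2)) = p →
      finrank K ((Usp (fun b => c * plu (l1 ++ A1 ++ F ++ A2 ++ l2) b)
        (l1 ++ A1 ++ F ++ A2 ++ l2).length l1.length (A1.length + F.length + A2.length)).map
          (slc F.length sl sr)) =
        2 ^ (rkl (F ++ (sel A1 sl ++ sel A2 sr)) + rkl ((sel A1 sl ++ sel A2 sr) ++ (l1 ++ l2)) -
          (sel A1 sl ++ sel A2 sr).length - p)) ∧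
    (∀ l1 F l2 : List (Fin p → K), rkl (l1 ++ F ++ l2) = p →
      finrank K (Usp (fun b => c * plu (l1 ++ F ++ l2) b) (l1 ++ F ++ l2).length l1.length
        F.length) = 2 ^ (rkl F + rkl (l1 ++ l2) - p))

/-- TLK (Tutte's linking theorem for rank functions).
PROOF. Generalize: let `r` be a rank function on the subsets of a type, `G = F ∪ S ∪ B` a finset
(disjoint union), `p = r G`, `r F + r (G \ F) = k + p` and `k + p ≤ r Y + r (G \ Y)` for all
`F ⊆ Y ⊆ F ∪ S`. Induction on the cardinality of `S` (for all `r, p`). `S = ∅`: `C = ∅`. Otherwise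
let `s ∈ S`.
Case 1: `r {s} = 0`, or `k + p ≤ r Y + r (G \ {s} \ Y)` for all `F ⊆ Y ⊆ F ∪ S \ {s}`. Delete `s`:
the inequalities for `G \ {s}` hold (if `r {s} = 0`, `r (G \ {s} \ Y) = r (G \ Y)`); with `Y = F`,
`k + p ≤ r F + r (G \ {s} \ F) ≤ r F + r (G \ F) = k + p`, so equality; and `r (G \ {s}) = p`,
since otherwise submodularity gives `r (G \ {s} \ F) ≤ r (G \ F) + r (G \ {s}) - r G < r (G \ F)`.
Apply induction.
Case 2: `r {s} = 1` and some `Y1` violates the inequality: `r Y1 + r (G \ {s} \ Y1) ≤ k + p - 1`.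
Contract `s`: `r' X = r (insert s X) - 1`, `G' = G \ {s}`, `p' = p - 1`. Needed:
`k + p + 1 ≤ r (insert s Y2) + r (G \ Y2)` for all `F ⊆ Y2 ⊆ F ∪ S \ {s}` (note
`insert s (G' \ Y2) = G \ Y2`). If it fails for `Y2`, add: by submodularity
`r Y1 + r (insert s Y2) ≥ r (Y1 ∩ Y2) + r (insert s (Y1 ∪ Y2))` and
`r (G \ {s} \ Y1) + r (G \ Y2) ≥ r (G \ insert s (Y1 ∪ Y2)) + r (G \ (Y1 ∩ Y2))`, so
`2 (k + p) ≤ k + p - 1 + k + p`, a contradiction. Equality for `Y2 = F`:
`r (insert s F) + r (G \ F) ≤ r F + 1 + r (G \ F) = k + p + 1`. Apply induction and add `s` to the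
set `C'` obtained: `r (insert s C') = C'.card + 1`, etc. -/
def G_TLK : Prop :=
  ∀ (E : Type) [Fintype E] [DecidableEq E] (r : Finset E → ℕ), r ∅ = 0 →
    (∀ X e, r X ≤ r (insert e X) ∧ r (insert e X) ≤ r X + 1) →
    (∀ X Y, r (X ∩ Y) + r (X ∪ Y) ≤ r X + r Y) →
    ∀ (p k : ℕ) (F B : Finset E), Disjoint F B → r Finset.univ = p → r F + r Fᶜ = k + p →
    (∀ Y, F ⊆ Y → Disjoint Y B → k + p ≤ r Y + r Yᶜ) →
    ∃ C, Disjoint C F ∧ Disjoint C B ∧ r C = C.card ∧ r (F ∪ C ∪ B) = p ∧
      r (F ∪ C) + r (C ∪ B) = k + p + C.card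

/-- SYM (the connectivity function is symmetric and submodular).
PROOF. `rkS l` is monotone and submodular (`span (image of X ∪ Y) = span ⊔ span`, the span of the
image of `X ∩ Y` is contained in the intersection, `Submodule.finrank_sup_add_finrank_inf_eq`),
`rkS l univ = p` gives `p ≤ rkS l X + rkS l Xᶜ`, so the truncated subtraction is a true one; apply
submodularity to `X, Y` and to `Xᶜ, Yᶜ`. -/
def G_SYM : Prop :=
  ∀ (K : Type u) [Field K] (p : ℕ) (l : List (Fin p → K)), rkl l = p → SymSub (lamL l)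

/-- F1I (index form of the window dimension; extra hypothesis `G_WIN`).
PROOF. `{v | v ∈ F.map l.get} = l.get '' F.toFinset` and, as `L1 ++ F ++ L2` lists all indices once,
`{v | v ∈ (L1 ++ L2).map l.get} = l.get '' (F.toFinset)ᶜ`; the list `(L1 ++ F ++ L2).map l.get` has
the same members as `l`, so rank `p`. -/
def G_F1I : Prop :=
  ∀ (K : Type u) [Field K] (p : ℕ) (c : K) (l : List (Fin p → K)), c ≠ 0 → rkl l = p →
    ∀ L1 F L2 : List (Fin l.length), (L1 ++ F ++ L2).Nodup →
      (L1 ++ F ++ L2).length = l.length →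
      finrank K (Usp (fun b => c * plu ((L1 ++ F ++ L2).map l.get) b) l.length L1.length
        F.length) = 2 ^ lamL l F.toFinset

/-- LK (linking gives a slice; extra hypotheses `G_WIN`, `G_TLK`, `G_F1I`).
PROOF. Apply TLK with `r = rkS l`, `F.toFinset`, `B = (M1 ++ F ++ M2).toFinsetᶜ`,
`k = lamL l F.toFinset` (`r F + r Fᶜ = k + p` as `p ≤ r F + r Fᶜ`, similarly for `Y`): it gives
`C ⊆ (M1 ++ M2).toFinset`. Let `sl = M1.map (· ∈ C)`, `sr = M2.map (· ∈ C)` (as Booleans); then
`sel (M1.map l.get) sl ++ sel (M2.map l.get) sr` is the list of the vectors with index in `C`,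
linearly independent because `rkS l C = C.card`. By WIN the space
`(Usp z m i n).map (slc F.length sl sr)` has dimension `2 ^ k`, which is `finrank` of
`Usp z m j F.length` by F1I; and it is contained in `Usp z m j F.length` (the generator of `xs, zs`
goes to the generator of `xs ++ sl, sr ++ zs`), so they are equal. -/
def G_LK : Prop :=
  ∀ (K : Type u) [Field K] (p : ℕ) (c : K) (l : List (Fin p → K)), c ≠ 0 → rkl l = p →
    ∀ L1 M1 F M2 L2 : List (Fin l.length), (L1 ++ M1 ++ F ++ M2 ++ L2).Nodup →
      (L1 ++ M1 ++ F ++ M2 ++ L2).length = l.length →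
      lamL l F.toFinset = lamL l (M1 ++ F ++ M2).toFinset →
      (∀ Y, F.toFinset ⊆ Y → Y ⊆ (M1 ++ F ++ M2).toFinset →
        lamL l (M1 ++ F ++ M2).toFinset ≤ lamL l Y) →
      LinkOK (fun b => c * plu ((L1 ++ M1 ++ F ++ M2 ++ L2).map l.get) b) l.length L1.length
        (M1 ++ F ++ M2).length (L1.length + M1.length) F.length

/-- TF (tensor factorization of a window).
PROOF. If `bs1 ↦ h (bs1 ++ cs)` denotes the function of `bs1` extended by `0` to lists of length
`≠ n1`, it lies in `Usp z m i n1` for every `cs` of length `n2` (true for the generators of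
`Usp z m i (n1 + n2)`: fix `xs` and `cs ++ zs`; then linear combinations); similarly
`cs ↦ h (bs1 ++ cs)` lies in `Usp z m (i + n1) n2` for every `bs1` of length `n1`. The nonzero
members of `Ba` form a basis of `Usp z m i n1`: for each `cs` there are unique coefficients
`κ_β (cs)` (`κ_β = 0` for `β ≥ r1`) with `h (bs1 ++ cs) = Σ_β Ba β bs1 κ_β (cs)`. Since the `Ba β`
(`β < r1`) are linearly independent functions, there are finitely many points `q_s` and scalars
`d_{β s}` with `Σ_s d_{β s} Ba β' (q_s) = δ_{β β'}` (an independent family of functions has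
evaluations spanning the dual space); then `κ_β (cs) = Σ_s d_{β s} h (q_s ++ cs)` is, as a function
of `cs`, in `Usp z m (i + n1) n2`, so `κ_β (cs) = Σ_γ x β γ * Bb γ cs`. -/
def G_TF : Prop :=
  ∀ (K : Type u) [Field K] (D : ℕ) (z : List Bool → K) (m i n1 n2 r1 r2 : ℕ)
    (Ba Bb : Fin D → List Bool → K), BF Ba (Usp z m i n1) r1 → BF Bb (Usp z m (i + n1) n2) r2 →
    ∀ h ∈ Usp z m i (n1 + n2), ∃ x : Fin D → Fin D → K, ∀ bs : List Bool,
      bs.length = n1 + n2 → h bs = ∑ β, ∑ γ, x β γ * Ba β (bs.take n1) * Bb γ (bs.drop n1)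

/-- GA (existence of a good tree tensor network with a given skeleton; extra hypothesis `G_TF`).
PROOF. `D = 2 ^ w`, `m = σ.leaves`, all functions are restricted to lists of the right length. An
environment is a partial function `env : ℕ → Option (ℕ × ℕ × (Fin D → List Bool → K))`;
`env k = some (i_k, n_k, B_k)` means: there is an active ancestor of label `k`, whose window starts
at `i_k`, has `n_k` positions and basis family `B_k`, `BF B_k (Usp z m i_k n_k) (2 ^ k)`.
CLAIM, by induction on the subtree `s` of `σ` (with start `i`, so `SubO σ 0 s i`): let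
`BF B (Usp z m i s.leaves) (2 ^ s.lab)`; for every `k ≤ s.lab` with `env k` active and every
`DnO k s i f j` let `LinkOK z m i_k n_k j f.leaves`; if `env s.lab` is active, let
`sl, sr` exist with `sl.length + s.leaves + sr.length = n_k` and
`B α bs = B_k α (sl ++ bs ++ sr)` for all `α` and `bs` of length `s.leaves`. Then there is
`t : Tr (Var w → K)` with `t.map (fun _ => ()) = s`, `ev w t α bs = B α bs` for all `α` and
`bs.length = s.leaves`, `Good t`, and for every active `k ≤ s.lab` and every `Dn k t f` there are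
`sl, sr` with `sl.length + f.leaves + sr.length = n_k` and `B_k α (sl ++ bs ++ sr) = ev w f α bs`
for all `α` and `bs.length = f.leaves`.
Leaf: `t = leaf k x` with `x (α, zi, zi, e) = B α [e]`. Node `s = node k0 () s1 s2`: the new
environment is `env' k = env k` for `k < k0`, `env' k0 = some (i, s.leaves, B)`, `none` for
`k > k0`. For the child `s1` (start `i`) of label `k1`: if `env' k1` is active, `Dn.here` and the
hypotheses (`k1 < k0`: `env`; `k1 = k0`: the hypothesis on `StepO`) give `LinkOK` for its window,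
i.e. `(Usp z m i_k n_k).map (slc s1.leaves sl sr) = Usp z m i s1.leaves`; put
`B1 α = slc s1.leaves sl sr (B_k α)`; it is zero for `α ≥ 2 ^ k1`, spans the image, and is
independent as the dimension of the image is `2 ^ k1`. If `env' k1` is not active take any basis
(`2 ^ k1 ≤ D` because of `LabLe w`). Same for `s2` (start `i + s1.leaves`). Apply the induction
hypothesis to `s1, s2`, get `t1, t2`, and let `t = node k0 x t1 t2` with `x (α, β, γ, false)` from
TF for `h = B α`. `Good t`: for `e = t`, `Step t f` is `Dn k0 t1 f` or `Dn k0 t2 f`, use the property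
of the active label `k0`; for `e` in a child use `Good`. For an active `k < k0` and `Dn k t f`, `f`
is in a child; for `k = k0`, `Dn k0 t f` forces `f = t` and the hypothesis on `B` applies.
Start: `s = σ`, `i = 0`, `env = none`; `Usp z m 0 m` is spanned by `z`, of dimension
`2 ^ 0 = 1`, so `z ≠ 0`; `B 0 = z`, `B α = 0` otherwise. -/
def G_GA : Prop :=
  ∀ (K : Type u) [Field K] (w : ℕ) (z : List Bool → K) (σ : Tr Unit), σ.LabLe w → σ.lab = 0 →
    (∀ b, b.length ≠ σ.leaves → z b = 0) →
    (∀ s i, Tr.SubO σ 0 s i → finrank K (Usp z σ.leaves i s.leaves) = 2 ^ s.lab) →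
    (∀ s i f j, Tr.SubO σ 0 s i → Tr.StepO s i f j →
      LinkOK z σ.leaves i s.leaves j f.leaves) →
    ∃ t : Tr (Var w → K), t.LabLe w ∧ t.leaves = σ.leaves ∧ Good t ∧
      ∀ b, b.length = σ.leaves → ev w t (zi w) b = z b

/-! ## Part 5: linked decompositions -/

/-- OCC (occurrences in the skeleton). All by induction on the tree or the derivation. -/
def G_OCC : Prop :=
  ∀ (E : Type) [DecidableEq E] (lam : Finset E → ℕ) (t : BT E),
    t.list.toFinset = t.set ∧ (t.Disj → t.list.Nodup) ∧
    (t.skel lam).leaves = t.list.length ∧ (t.skel lam).lab = lam t.set ∧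
    (∀ w, t.WLe lam w → (t.skel lam).LabLe w) ∧
    (∀ i s j, Tr.SubO (t.skel lam) i s j → ∃ (v : BT E) (L1 L2 : List E), BT.Sub v t ∧
      s = v.skel lam ∧ t.list = L1 ++ v.list ++ L2 ∧ i + L1.length = j) ∧
    (∀ i f j, Tr.StepO (t.skel lam) i f j → ∃ (v : BT E) (M1 M2 : List E), BT.Step lam t v ∧
      f = v.skel lam ∧ t.list = M1 ++ v.list ++ M2 ∧ i + M1.length = j)

/-- RB (restriction of trees). All by induction on `s`. -/
def G_RB : Prop :=
  ∀ (E : Type) [DecidableEq E] (Y : Finset E) (s : BT E),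
    (s.res Y = none ↔ s.set ∩ Y = ∅) ∧ (s.set ⊆ Y → s.res Y = some s) ∧
    (∀ a, s.res Y = some a → a.set = s.set ∩ Y ∧ (s.Disj → a.Disj) ∧
      (∀ (lam : Finset E → ℕ) (w : ℕ),
        (∀ v, BT.Sub v s → (v.set ∩ Y).Nonempty → lam (v.set ∩ Y) ≤ w) → a.WLe lam w)) ∧
    (∀ (lam : Finset E → ℕ) (k q q' : ℕ), q ≤ q' → BT.psi lam k q s ≤ BT.psi lam k q' s) ∧
    (∀ (lam : Finset E → ℕ) (k q : ℕ), BT.psi lam k q s = BT.psi lam k (min q (lam s.set)) s)

/-- RSPL (the two parts of a split tree; extra hypothesis `G_RB`).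
PROOF by induction on `s`, `l = lam s.set`; `g = gW k`, `h = hW k`; `s` is split by `Y`
(both parts nonempty), so `s = node x y`. As `1 ≤ k`, the root edge weight in `psi lam k 0` is
`h (min _ 0) = 0`. Let `l1 = lam (s.set ∩ Y) < l`, `l2 = lam (s.set \ Y) < l`; note
`g l1 + h l1 + g l2 + h l2 ≤ g l` for `l1, l2 < l` (`2 (4^(2l-1) + 4^(2l-2)) ≤ 4^(2l+1)`, and the
cutoff: if `k ≤ l1` or `k ≤ l2` then `k ≤ l`), `psi` is monotone in `q` (RB).
Both `x, y` split: `a = node xa ya`, `b = node xb yb`; the induction hypothesis bounds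
`psi l1 xa + psi l2 xb ≤ psi 0 x ≤ psi l x`, the same for `y`, and the root terms are bounded by
`g l`. One child split and the other one contained in `Y` (or disjoint from `Y`): say `x` split,
`y.set ⊆ Y`: `a = node xa y`, `b = xb`: `psi l1 xa + psi q2 xb ≤ psi 0 x ≤ psi l x`,
`psi l1 y ≤ psi l y`, root terms `g l1 + h l1 ≤ g l`. The other three subcases are alike.
None split: then `x.set ⊆ Y` and `y.set ∩ Y = ∅` (or conversely), `a = x`, `b = y`:
`lam x.set = lam (s.set ∩ Y) < l`, so `psi q1 x = psi (min q1 (lam x.set)) x ≤ psi l x`, the same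
for `y`, and `psi 0 s = g l + psi l x + psi l y`. -/
def G_RSPL : Prop :=
  ∀ (E : Type) [Fintype E] [DecidableEq E] (lam : Finset E → ℕ) (Y : Finset E) (k : ℕ)
    (s : BT E), 1 ≤ k → s.Disj →
    (∀ v, BT.Sub v s → (v.set ∩ Y).Nonempty → (v.set \ Y).Nonempty →
      lam (v.set ∩ Y) < lam v.set ∧ lam (v.set \ Y) < lam v.set) →
    ∀ a b q1 q2, s.res Y = some a → s.res Yᶜ = some b →
      BT.psi lam k q1 a + BT.psi lam k q2 b ≤ BT.psi lam k 0 s

/-- SE (surgery below a node; extra hypotheses `G_RB`, `G_RSPL`). `e'` is `e` with the subtree `f`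
replaced by `T = e.res Y` and all other leaves in `Y` removed.
PROOF. Let `v_0 = e, v_1, …, v_s = f` be the path, `u_i` the sibling of `v_i` (`1 ≤ i`),
`l_i = lam v_i ≥ k0 > μ`, `a_i = lam (v_i ∩ Y)`, `b_i = lam (v_i ∪ Y)` (sets of trees omitted). All
sets `Z` with `f ⊆ Z ⊆ e` have `μ ≤ lam Z`; submodularity with `Y` (`lam Y = μ`) gives
`a_i + b_i ≤ l_i + μ`, `μ ≤ a_i, b_i ≤ l_i`; so there are three exclusive types: INNER
(`a_i = l_i`, `b_i = μ`), OUTER (`b_i = l_i`, `a_i = μ`), SMALL (`a_i, b_i < l_i`). `e` is OUTER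
(`a_0 = lam Y = μ`), `f` is INNER (`b_s = lam Y`). For a subtree `u` disjoint from `f`,
`lam (u ∩ Y) ≤ lam u` (submodularity, `μ ≤ lam (u ∪ Y)`) and `lam (u \ Y) ≤ lam u` (submodularity for
`uᶜ` and `Y`, `μ ≤ lam (Y \ u)`, and symmetry); this gives `WLe` for `e'`, whose sets are the
`v_i ∩ Y`, `v_i ∪ Y`, `u ∩ Y`, `u \ Y`.
`Out v_i` is defined along the path: `Out f = T`, `Out v_{i-1} = node (Out v_i) (u_i.res Yᶜ)` (or the
mirror image), or `Out v_i` if `u_i.set ⊆ Y`; `e' = Out e`; `set (Out v_i) = v_i ∪ Y`. `In v_i =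
v_i.res Y`; `T = In e`.
Fix `k > μ`; `g = gW k`, `h = hW k`, `psi = psi lam k`. As `lam T = μ < k`, `psi q T = psi 0 T`
for all `q`; put `O_i(y) = psi y (Out v_i) - psi 0 T ≥ 0`, `I_i(x) = psi x (In v_i)` and
`D_i(x,y,z) = psi z v_i - I_i(x) - O_i(y)`. Then `psi q e - psi q e' = psi q e - O_0(q) - psi 0 T =
D_0(0,q,q)`. `I_i(x)` depends only on `min x a_i`, `O_i(y)` only on `min y b_i`.
INVARIANT: INNER and `x ≤ z` ⇒ `D_i ≥ 0`; OUTER and `y ≤ z` ⇒ `D_i ≥ 0`; SMALL ⇒ `D_i ≥ 0` for all
`x, y, z`. At `i = s`: `O_s = 0`, `D_s = psi z f - psi x f ≥ 0` for `x ≤ z`.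
STEP from `i` to `i - 1`; `(l,a,b) = (l,a,b)_{i-1}`, `u = u_i`:
(A) `u` split: `D_{i-1}(x,y,z) = [g l - g a - g b] + [h(min l z) - h(min a x) - h(min b y)]
+ D_i(a,b,l) + [psi l u - psi a (u.res Y) - psi b (u.res Yᶜ)]`; the last bracket is `≥ 0` by RSPL
(and `psi 0 u ≤ psi l u`), `D_i(a,b,l) ≥ 0` since `a, b ≤ l`; the first two: INNER: `g μ = h μ = 0`,
`h(min l z) - h(min l x) ≥ 0` for `x ≤ z`; OUTER alike; SMALL: `g a + g b + h a + h b ≤ g l`.
(B) `u ⊆ Y` (so `b = b_i`): `D_{i-1}(x,y,z) = [g l - g a] + [h(min l z) - h(min a x)] + D_i(a,y,l) +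
[psi l u - psi a u]`. `D_i(a,y,l) = D_i(a, min y b_i, l) ≥ 0` (`a ≤ l`, `min y b_i ≤ b ≤ l`). If
`a = l` (INNER): `x ≤ z` suffices; if `a < l`: `g l - g a - h a ≥ 0`.
(C) `u ∩ Y = ∅` (so `a = a_i`): symmetric to (B).
So `psi q e' ≤ psi q e`. STRICTNESS for `k = μ + 1` (so `k ≤ k0 ≤ l_i` for all `i`, `g l_i, h l_i
> 0`): strengthened invariant: either (U) `i` is INNER and `D_i(x,y,z) ≥ h(min l_i z) -
h(min l_i x)` for all `x, y, z` (as integers), or (F) `D_i(x,y,z) > 0` under the constraint of its type.
`f` is in (U): RB. From (F) every step leads to (F) (same computations). From (U) at `i`: if `i - 1`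
is INNER, (A), (B) give (U) (note `D_i(l,_,l) ≥ 0`), (C) gives (F) (`b = μ`, gain `g l`); if SMALL,
(F), because `g l > g a + g b + h a + h b` strictly; if OUTER, (B) is impossible
(`b_{i-1} = b_i = μ < l`), (C) is impossible (`a_{i-1} = a_i = l_i > μ`), and in (A)
`D_i(μ,l,l) ≥ h(min l_i l) - h μ > 0` gives (F). As `e` is OUTER, it is in (F):
`psi q e' < psi q e`. -/
def G_SE : Prop :=
  ∀ (E : Type) [Fintype E] [DecidableEq E] (lam : Finset E → ℕ) (w μ : ℕ) (e f : BT E)
    (Y : Finset E), SymSub lam → e.Disj → e.WLe lam w → BT.Step lam e f →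
    f.set ⊆ Y → Y ⊆ e.set → lam Y = μ → μ < lam e.set →
    (∀ Z, f.set ⊆ Z → Z ⊆ e.set → μ ≤ lam Z) →
    (∀ v, BT.Sub v e → Disjoint v.set f.set → (v.set ∩ Y).Nonempty → (v.set \ Y).Nonempty →
      lam (v.set ∩ Y) < lam v.set ∧ lam (v.set \ Y) < lam v.set) →
    ∃ e' : BT E, e'.set = e.set ∧ e'.Disj ∧ e'.WLe lam w ∧
      (∀ k q, μ < k → BT.psi lam k q e' ≤ BT.psi lam k q e) ∧
      (∀ q, BT.psi lam (μ + 1) q e' < BT.psi lam (μ + 1) q e)

/-- SURG (a tree that is not linked can be improved; extra hypothesis `G_SE`).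
PROOF. Not linked: there are `e, f, Y0` with `Sub e t`, `Step lam e f`, `f ⊆ Y0 ⊆ e`,
`lam Y0 < lam e`. Among all `Y` with `f ⊆ Y ⊆ e` and `lam Y` minimal (`= μ`), take one with the
minimal number of subtrees `v` of `e` disjoint from `f` that are split by `Y` (`v ∩ Y ≠ ∅`,
`v \ Y ≠ ∅`; count the sets of such subtrees). Let `v` be such a subtree. By submodularity
`lam (v ∩ Y) + lam (v ∪ Y) ≤ lam v + μ` and `μ ≤ lam (v ∪ Y)`, so `lam (v ∩ Y) ≤ lam v`, and if
there is equality then `Y' = v ∪ Y` is also minimal, and splits fewer: subtrees contained in `v` are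
not split by `Y'`, the others are split by `Y'` iff by `Y` if they are disjoint from `v`, and those
containing `v` were split by `Y` already; `v` is not split by `Y'`. Contradiction, so `<`. Similarly
`lam (vᶜ ∩ Y) + lam (vᶜ ∪ Y) ≤ lam v + μ` (symmetry), `lam (vᶜ ∪ Y) = lam (v \ Y)`, and
`μ ≤ lam (Y \ v)` as `v` is disjoint from `f`; equality `lam (v \ Y) = lam v` would make
`Y' = Y \ v` minimal and split fewer. (Subtrees of `e` are pairwise nested or disjoint, since
`e.Disj`.) Apply SE to get `e'` and replace `e` by `e'` in `t` (same set, so all labels above are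
unchanged; `psi k q t' ≤ psi k q t` and the strict version by induction on the position). `μ < w`
because `μ < lam e.set ≤ w`. -/
def G_SURG : Prop :=
  ∀ (E : Type) [Fintype E] [DecidableEq E] (lam : Finset E → ℕ) (w : ℕ) (t : BT E),
    SymSub lam → t.Disj → t.WLe lam w → ¬ t.Linked lam →
    ∃ (t' : BT E) (μ : ℕ), t'.set = t.set ∧ t'.Disj ∧ t'.WLe lam w ∧ μ < w ∧
      (∀ k, μ < k → BT.psi lam k 0 t' ≤ BT.psi lam k 0 t) ∧
      BT.psi lam (μ + 1) 0 t' < BT.psi lam (μ + 1) 0 t

/-- LD (existence of linked decompositions; extra hypothesis `G_SURG`).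
PROOF. `Dec lam w X` gives a tree `t` with `t.set = X`, `t.Disj`, `t.WLe lam w` (induction). Let
`T_w` be the set of all trees with set `univ`, `Disj` and `WLe lam w`, and, going down,
`T_{k-1}` the set of the members of `T_k` with minimal `psi lam k 0`. Let `t ∈ T_0`. If `t` is not
linked take `t', μ` from SURG; by downward induction `t' ∈ T_k` for `μ < k ≤ w` (it is in `T_w`; if
it is in `T_k`, `k > μ + 1`, then as `psi k t' ≤ psi k t` and `t` is minimal in `T_k`, so is `t'`),
and then `psi (μ+1) t' < psi (μ+1) t` contradicts the minimality of `t` in `T_{μ+1}`. -/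
def G_LD : Prop :=
  ∀ (E : Type) [Fintype E] [DecidableEq E] (lam : Finset E → ℕ) (w : ℕ), SymSub lam →
    Dec lam w Finset.univ →
    ∃ t : BT E, t.set = Finset.univ ∧ t.Disj ∧ t.WLe lam w ∧ t.Linked lam

/-- GT (extra hypotheses: `G_SYM`, `G_LD`, `G_OCC`, `G_F1I`, `G_LK`, `G_GA`). Assembly. -/
def G_GT : Prop :=
  ∀ (K : Type u) [Field K] (w p : ℕ) (c : K) (l : List (Fin p → K)), c ≠ 0 → l ≠ [] →
    rkl l = p → Dec (lamL l) w Finset.univ →
    ∃ (ρ : List (Fin l.length)) (t : Tr (Var w → K)), ρ.Nodup ∧ ρ.length = l.length ∧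
      t.LabLe w ∧ t.leaves = l.length ∧ Good t ∧
      ∀ b, b.length = l.length → ev w t (zi w) b = c * plu (ρ.map l.get) b

/-! ## Part 6: points of the infinite Grassmannian -/

/-- ACT (the monomial group acts).
PROOF. Define the restriction `rs (hn : n ≤ m) (hp : p ≤ q) : Form K m q → Form K n p`,
`rs ω a = ω (fun j => if j < q - p then inr (q - 1 - j) else inc (a (j - (q - p))))`; it is a
composite of `xi`s and `theta`s: `rs = id` for `m = n, q = p`, `xi (rs ω) = rs ω`,
`theta (rs ω) = rs ω`, `rs (xi ω) = rs ω`, `rs (theta ω) = rs ω` for the appropriate levels, and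
`rs` preserves `IsDec`. On the levels `(m, q) ≥ (n, p)` let `y.x m q a = (∏ c (a j)) * x.x m q (s ∘ a)`;
this commutes with `xi` and `theta` there (`g.s`, `g.c` at level `(m+1, q)` restrict to those at
level `(m, q)` along `inc`, and fix the new basis vector with `c = 1`), and it is decomposable
(`φ'_i e = c e * φ_i (s e)`). In general put
`y.x m q = rs (the above at level (max n m, max p q))`. -/
def G_ACT : Prop :=
  ∀ (K : Type u) [Field K] (n p : ℕ) (g : Mono K n p) (x : Pt K), ∃ y : Pt K, IsPull g x y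

/-- MONO (signed permutations of the basis at a given level; extra hypothesis `G_ACT`).
PROOF. Let `g : Mono K (n + 1) p` be `σ` extended by `inl (Fin.last n) ↦ inl (Fin.last n)`, with
`t` extended by `t (inl (Fin.last n)) = sign σ * ∏ t i` (which is `1` or `-1`, so the determinant is
its square `= 1`). Take `y` from ACT; `y ∈ C` by stability; at level `(n + 1, p)` use `IsPull` with
`le_rfl` (`g.s le_rfl le_rfl = g.σ`, `g.c le_rfl le_rfl = g.t`), and restrict with `xi_eq`. -/
def G_MONO : Prop :=
  ∀ (K : Type u) [Field K] (C : Set (Pt K)), NStable {1, -1} C → ∀ x ∈ C, ∀ (n p : ℕ)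
    (σ : Equiv.Perm (Ix n p)) (t : Ix n p → K), (∀ i, t i = 1 ∨ t i = -1) →
    ∃ y ∈ C, ∀ a : Fin p → Ix n p, y.x n p a = (∏ j, t (a j)) * x.x n p (σ ∘ a)

/-- H2 (slices; extra hypothesis `G_MONO`).
PROOF. `z = ft ω L`, `ω = x.x n p`, `L` nodup of length `m + 1 = n + p`; `e = L[i]`, `L' = L` without
its `i`-th member. The case `z = 0` is trivial. Case `c = false`: `sel L (b.take i ++ false ::
b.drop i) = sel L' b`. If `n = 0` then `p = m + 1` and the result is `0`. If `n = n' + 1` let `σ` be
a permutation (a swap) with `σ (inl (Fin.last n')) = e` and `y` from MONO with `t = 1`; then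
`y.x n' p a' = ω (σ ∘ inc ∘ a')`. The members of `L'` are `≠ e`, so `L' = L''.map (σ ∘ inc)` for
a list `L''` of members of `Ix n' p`, nodup of length `m = n' + p`, and the result is
`ft (y.x n' p) L''`. Case `c = true`: `sel L (b.take i ++ true :: b.drop i) =
sel (L.take i) (b.take i) ++ e :: sel (L.drop (i + 1)) (b.drop i)`, and as `ω` is alternating (it is
decomposable), its value is `(-1)^s ω (e :: sel L' b)`, where `s` is the number of selected members
of `L.take i`. If `p = 0` the result is `0`. If `p = p' + 1` let `σ (inr (Fin.last p')) = e`,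
`t (σ⁻¹ (L_j)) = -1` for `j < i` and `t = 1` otherwise; MONO gives `y` and `theta_eq` gives
`y.x n p' a' = (∏ t (inc (a' j))) * ω (cons e (σ ∘ inc ∘ a'))`, so with `L' = L''.map (σ ∘ inc)`
the result is `ft (y.x n p') L''`. -/
def G_H2 : Prop :=
  ∀ (K : Type u) [Field K] (C : Set (Pt K)), NStable {1, -1} C →
    ∀ (m i : ℕ) (c : Bool) (z : List Bool → K), i ≤ m → z ∈ TensOf C (m + 1) →
      (fun b => if b.length = m then z (b.take i ++ c :: b.drop i) else 0) ∈ TensOf C m

/-- IAC (rearrangement; extra hypothesis `G_SG`).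
PROOF. `iact ρ 0 = 0`. For `z = ft (x.x n p) L'` with `L'` nodup of length `m`: let
`L i = L'[index of i in ρ]` (`i : Fin m`), so `L' = ρ.map L`, and `List.ofFn L` is nodup of length
`m`. The form is alternating because it is decomposable. By SG `iact ρ z = ft (x.x n p)
(List.ofFn L)`. -/
def G_IAC : Prop :=
  ∀ (K : Type u) [Field K] (C : Set (Pt K)) (m : ℕ) (ρ : List (Fin m)) (z : List Bool → K),
    ρ.Nodup → ρ.length = m → z ∈ TensOf C m → iact ρ z ∈ TensOf C m

/-- RK1 (combinatorial rank = linear rank).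
PROOF. `ω a ≠ 0` iff `c ≠ 0` and the `v (a j)` form a basis of `K^p`. `≤`: for such `a` the `v (a j)`
with `a j ∈ X` are independent in the span of `v '' X` (and `j ↦ a j` is injective). `≥`: take a
subset `A` of `X` such that `v` is injective on `A` and `v '' A` is a basis of the span of `v '' X`,
extend it by further members of `v '' univ`, which spans `K^p` because some `ω a0 ≠ 0`, to a basis;
list it as `v ∘ a`. -/
def G_RK1 : Prop :=
  ∀ (K : Type u) [Field K] (n p : ℕ) (ω : Form K n p) (c : K) (v : Ix n p → Fin p → K),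
    (∀ a, ω a = c * Matrix.det (fun i j => v (a j) i)) → ω ≠ 0 → ∀ X : Finset (Ix n p),
    rk ω X = finrank K (Submodule.span K (v '' (X : Set (Ix n p))))

/-- REP (nonzero tensors of points of branch-width `≤ w`; extra hypothesis `G_RK1`).
PROOF. `z = ft ω L ≠ 0`, `ω = x.x n p` with `x ∈ C`, `ω a = c det (φ_i (a_j))`, so `ω ≠ 0`, `c ≠ 0`.
Let `v e = fun i => φ_i e` and `l = L.map v`. Then `z b = c * plu l b`, `rkl l = p` (some
determinant is nonzero; `L` lists all of `Ix n p`). For `ρ`, `c * plu (ρ.map l.get) b` is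
`ft ω (ρ'.map L.get)` with `ρ'` the same list of indices, and `ρ'.map L.get` is nodup of
length `m`. Connectivity: by RK1, for a set `X` of indices and its image `X'` under `L.get`,
`lamL l X = conn ω X'`. If `n, p ≥ 1`, `x ∈ BW` gives `Dec (conn ω) w univ`, which is transported
along the bijection `L.get` (a general lemma on `Dec` and equivalences). If `n = 0` or `p = 0` then
`lamL l X = 0` for all `X` (`p = 0`: all ranks are `0`; `n = 0`: the `m = p` vectors are a basis, so
`rkS l X = X.card`), and any tree does (`m ≥ 1`; lemma: if `lam ≤ w` everywhere and `X` is nonempty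
then `Dec lam w X`). -/
def G_REP : Prop :=
  ∀ (K : Type u) [Field K] (w : ℕ) (C : Set (Pt K)), C ⊆ BW K w → ∀ (m : ℕ)
    (z : List Bool → K), 1 ≤ m → z ∈ TensOf C m → z ≠ 0 →
    ∃ (p : ℕ) (c : K) (l : List (Fin p → K)), c ≠ 0 ∧ l.length = m ∧ rkl l = p ∧
      Dec (lamL l) w Finset.univ ∧ (z = fun b => c * plu l b) ∧
      ∀ ρ : List (Fin l.length), ρ.Nodup → ρ.length = l.length →
        (fun b => c * plu (ρ.map l.get) b) ∈ TensOf C m

/-- CLB (`BW` is closed).
PROOF. If `supp ω ⊆ supp ω'` then `rk ω ≤ rk ω'` and `conn ω ≤ conn ω'` pointwise, so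
`BWLe w ω'` implies `BWLe w ω`. Hence for `x ∈ Pt K`, `BWLe w (x.x n p)` iff for every set `A` of
coordinates such that `¬ BWLe w (indicator of A)` the product `∏_{a ∈ A} x.x n p a` vanishes
(⇒: if it does not vanish, `A ⊆ supp`, so `BWLe w (indicator of A)`; ⇐: take `A = supp`; the
indicator of the support has the same `rk`). Take for `S` all the equations
`⟨n, p, ∏_{a ∈ A} X a⟩` with `1 ≤ n, p` and such `A`. -/
def G_CLB : Prop :=
  ∀ (k K : Type u) [Field k] [Field K] [Algebra k K] (w : ℕ), IsZClosed k (BW K w)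

/-- MIN (minors).
PROOF. Lemma: if `ι : E' → E` is injective and `lam' (X.preimage ι) ≤ lam X` for all `X`, then
`Dec lam w X` and `X.preimage ι` nonempty imply `Dec lam' w (X.preimage ι)` (induction on `Dec`; in
a join, if one preimage is empty the other one is everything). Here `ι = inc`, surjective except
for one element `x`. For `xi`: `rk (xi ω) (X.preimage) ≤ rk ω X` (a nonzero coordinate `a'` of
`xi ω` gives the nonzero coordinate `inc ∘ a'` of `ω`), for `X` and `Xᶜ`. For `theta`: if
`theta ω = 0` then `rk = 0`, `conn = 0`. Otherwise a nonzero coordinate `a'` gives the nonzero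
coordinate `a = cons x (inc ∘ a')` of `ω`, so `rk (theta ω) (X.preimage) + 1 ≤ rk ω X` if
`x ∈ X`, and `≤ rk ω X` otherwise; exactly one of `X, Xᶜ` contains `x`, so
`rk (theta ω) X' + rk (theta ω) X'ᶜ - p ≤ rk ω X + rk ω Xᶜ - (p + 1)`. -/
def G_MIN : Prop :=
  ∀ (K : Type u) [Field K] (w n p : ℕ), 1 ≤ n → 1 ≤ p →
    (∀ ω : Form K (n + 1) p, BWLe w ω → BWLe w (xi ω)) ∧
    (∀ ω : Form K n (p + 1), BWLe w ω → BWLe w (theta ω))

/-- NSB (`BW` is stable under all of `N(∞)`; extra hypothesis `G_MIN`).
PROOF. Let `y` be the pull-back of `x ∈ BW` under `g : Mono K n p`, `1 ≤ m, q`. At the level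
`(M, Q) = (max n m, max p q)`, `y.x M Q a = (∏ c (a j)) * x.x M Q (s ∘ a)` with `c ≠ 0` everywhere
(`det = 1`) and `s` bijective, so `rk (y.x M Q) X = rk (x.x M Q) (X.image s)` and `Dec` is
transported along the bijection `s` (`conn` is invariant): `BWLe w (y.x M Q)`. Then go down to
`(m, q)` with MIN, `xi_eq`, `theta_eq`. -/
def G_NSB : Prop :=
  ∀ (K : Type u) [Field K] (w : ℕ), NStable Set.univ (BW K w)

/-- CT (core theorem). -/
def G_CT : Prop :=
  ∀ (K : Type u) [Field K] (w : ℕ) (Y : ℕ → ℕ → Set (List Bool → K)), Sys w Y →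
    ∃ j0, ∀ j, j0 ≤ j → ∀ m, 1 ≤ m → ∀ P : MvPolynomial (Fin m → Bool) K,
      (∀ z ∈ Y j m, MvPolynomial.eval (fun b => z (List.ofFn b)) P = 0) →
      ∀ z ∈ Y j0 m, MvPolynomial.eval (fun b => z (List.ofFn b)) P = 0

end Pool.Agent.Helper64.IG
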