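import Pool.Agent.Helper64.IG.Goals

namespace Pool.Agent.Helper64.IG.PkRSPL'

theorem gW_mono (k a b : ℕ) (h : a ≤ b) : BT.gW k a ≤ BT.gW k b := by
  unfold BT.gW
  split_ifs with h1 h2
  · exact Nat.pow_le_pow_right (by norm_num) (by omega)
  · omega
  · exact Nat.zero_le _
  · exact le_rfl

theorem hW_mono (k a b : ℕ) (h : a ≤ b) : BT.hW k a ≤ BT.hW k b := by
  unfold BT.hW
  split_ifs with h1 h2
  · exact Nat.pow_le_pow_right (by norm_num) (by omega)
  · omega
  · exact Nat.zero_le _
  · exact le_rfl

theorem two_small (k l l1 l2 : ℕ) (h1 : l1 < l) (h2 : l2 < l) :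
    BT.gW k l1 + BT.hW k l1 + (BT.gW k l2 + BT.hW k l2) ≤ BT.gW k l := by
  by_cases hk : k ≤ l
  · obtain ⟨m, rfl⟩ : ∃ m, l = m + 1 := ⟨l - 1, by omega⟩
    have a1 : BT.gW k l1 ≤ 4 ^ (2 * m + 1) := by
      unfold BT.gW
      split_ifs
      · exact Nat.pow_le_pow_right (by norm_num) (by omega)
      · exact Nat.zero_le _
    have a2 : BT.gW k l2 ≤ 4 ^ (2 * m + 1) := by
      unfold BT.gW
      split_ifs
      · exact Nat.pow_le_pow_right (by norm_num) (by omega)
      · exact Nat.zero_le _
    have a3 : BT.hW k l1 ≤ 4 ^ (2 * m) := by
      unfold BT.hW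
      split_ifs
      · exact Nat.pow_le_pow_right (by norm_num) (by omega)
      · exact Nat.zero_le _
    have a4 : BT.hW k l2 ≤ 4 ^ (2 * m) := by
      unfold BT.hW
      split_ifs
      · exact Nat.pow_le_pow_right (by norm_num) (by omega)
      · exact Nat.zero_le _
    have a5 : BT.gW k (m + 1) = 4 ^ (2 * m) * 64 := by
      unfold BT.gW
      rw [if_pos hk, show 2 * (m + 1) + 1 = 2 * m + 3 by ring, pow_add]
      norm_num
    have a6 : (4 : ℕ) ^ (2 * m + 1) = 4 ^ (2 * m) * 4 := by rw [pow_succ]
    rw [a5]
    rw [a6] at a1 a2
    omega
  · have b1 : BT.gW k l1 = 0 := by unfold BT.gW; rw [if_neg (by omega)]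
    have b2 : BT.gW k l2 = 0 := by unfold BT.gW; rw [if_neg (by omega)]
    have b3 : BT.hW k l1 = 0 := by unfold BT.hW; rw [if_neg (by omega)]
    have b4 : BT.hW k l2 = 0 := by unfold BT.hW; rw [if_neg (by omega)]
    rw [b1, b2, b3, b4]
    exact Nat.zero_le _

theorem one_small (k l l1 : ℕ) (h1 : l1 < l) : BT.gW k l1 + BT.hW k l1 ≤ BT.gW k l := by
  have := two_small k l l1 l1 h1 h1
  omega

theorem rspl (rb : G_RB) : G_RSPL := by
  intro E _ _ lam Y k s hk hd H
  have mono : ∀ (s : BT E) (q q' : ℕ), q ≤ q' → BT.psi lam k q s ≤ BT.psi lam k q' s :=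
    fun s q q' h => (rb E Y s).2.2.2.1 lam k q q' h
  have mn : ∀ (s : BT E) (q : ℕ), BT.psi lam k q s = BT.psi lam k (min q (lam s.set)) s :=
    fun s q => (rb E Y s).2.2.2.2 lam k q
  have setY : ∀ (s a : BT E), s.res Y = some a → a.set = s.set ∩ Y :=
    fun s a h => ((rb E Y s).2.2.1 a h).1
  have setC : ∀ (s a : BT E), s.res Yᶜ = some a → a.set = s.set ∩ Yᶜ :=
    fun s a h => ((rb E Yᶜ s).2.2.1 a h).1
  have ne : ∀ s : BT E, s.set.Nonempty := by
    intro s
    induction s with
    | leaf e => exact ⟨e, by simp [BT.set]⟩
    | node a b iha _ => exact iha.mono (by simp [BT.set])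
  have nY : ∀ s : BT E, s.res Y = none → s.res Yᶜ = some s := by
    intro s h
    apply (rb E Yᶜ s).2.1
    have h1 := (rb E Y s).1.1 h
    intro e he
    rw [Finset.mem_compl]
    intro hY
    have : e ∈ s.set ∩ Y := Finset.mem_inter.2 ⟨he, hY⟩
    rw [h1] at this
    simp at this
  have nC : ∀ s : BT E, s.res Yᶜ = none → s.res Y = some s := by
    intro s h
    apply (rb E Y s).2.1
    have h1 := (rb E Yᶜ s).1.1 h
    intro e he
    by_contra hY
    have : e ∈ s.set ∩ Yᶜ := Finset.mem_inter.2 ⟨he, Finset.mem_compl.2 hY⟩
    rw [h1] at this
    simp at this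
  induction s with
  | leaf e =>
    intro a b q1 q2 h1 h2
    simp only [BT.res] at h1 h2
    by_cases he : e ∈ Y
    · rw [if_neg (by simp [he])] at h2
      cases h2
    · rw [if_neg he] at h1
      cases h1
  | node x y ihx ihy =>
    intro a b q1 q2 h1 h2
    have ihx' := ihx hd.2.1 (fun v hv => H v (BT.Sub.left y hv))
    have ihy' := ihy hd.2.2 (fun v hv => H v (BT.Sub.right x hv))
    have sa := setY _ _ h1
    have sb := setC _ _ h2
    have hsp := H _ (BT.Sub.refl _) (by rw [← sa]; exact ne a)
      (by
        have : (BT.node x y).set \ Y = (BT.node x y).set ∩ Yᶜ := by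
          ext e; simp [Finset.mem_sdiff]
        rw [this, ← sb]
        exact ne b)
    have e2 : (BT.node x y).set \ Y = b.set := by
      rw [sb]; ext e; simp [Finset.mem_sdiff]
    rw [← sa, e2] at hsp
    obtain ⟨hl1, hl2⟩ := hsp
    have h0 : BT.hW k (min (lam (x.set ∪ y.set)) 0) = 0 := by
      unfold BT.hW
      rw [if_neg (by omega)]
    have hP : BT.psi lam k 0 (BT.node x y) = BT.gW k (lam (x.set ∪ y.set)) +
        BT.psi lam k (lam (x.set ∪ y.set)) x + BT.psi lam k (lam (x.set ∪ y.set)) y := by
      show BT.gW k (lam (x.set ∪ y.set)) + BT.hW k (min (lam (x.set ∪ y.set)) 0) + _ + _ = _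
      rw [h0, add_zero]
    rw [hP]
    set l := lam (x.set ∪ y.set) with hl
    have hll : lam (BT.node x y).set = l := rfl
    rw [hll] at hl1 hl2
    have mx0 := mono x 0 l (Nat.zero_le _)
    have my0 := mono y 0 l (Nat.zero_le _)
    have ta := two_small k l _ _ hl1 hl2
    have tb := one_small k l _ hl1
    have tc := one_small k l _ hl2
    -- the four restrictions
    cases hxa : x.res Y with
    | none =>
      have hxb := nY x hxa
      cases hya : y.res Y with
      | none => simp [BT.res, hxa, hya] at h1
      | some ya =>
        have ha : a = ya := by simpa [BT.res, hxa, hya] using h1.symm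
        subst ha
        cases hyb : y.res Yᶜ with
        | none =>
          -- y ⊆ Y, x ∩ Y = ∅
          have hb : b = x := by simpa [BT.res, hxb, hyb] using h2.symm
          subst hb
          have hy' : a = y := by
            have := nC y hyb
            rw [hya] at this
            exact Option.some.inj this
          subst hy'
          have c1 : BT.psi lam k q1 a ≤ BT.psi lam k l a := by
            rw [mn a q1]
            exact mono a _ _ ((min_le_right _ _).trans hl1.le)
          have c2 : BT.psi lam k q2 b ≤ BT.psi lam k l b := by
            rw [mn b q2]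
            exact mono b _ _ ((min_le_right _ _).trans hl2.le)
          omega
        | some yb =>
          -- x ∩ Y = ∅, y split
          have hb : b = BT.node x yb := by simpa [BT.res, hxb, hyb] using h2.symm
          have hb2 : BT.psi lam k q2 b = BT.gW k (lam b.set) + BT.hW k (min (lam b.set) q2) +
              BT.psi lam k (lam b.set) x + BT.psi lam k (lam b.set) yb := by
            rw [hb]; rfl
          have i1 := ihy' a yb q1 (lam b.set) hya hyb
          have i2 := mono x _ _ hl2.le
          have i3 := hW_mono k (min (lam b.set) q2) (lam b.set) (min_le_left _ _)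
          rw [hb2]
          omega
    | some xa =>
      cases hya : y.res Y with
      | none =>
        have hyb := nY y hya
        have ha : a = xa := by simpa [BT.res, hxa, hya] using h1.symm
        subst ha
        cases hxb : x.res Yᶜ with
        | none =>
          have hb : b = y := by simpa [BT.res, hxb, hyb] using h2.symm
          subst hb
          have hx' : a = x := by
            have := nC x hxb
            rw [hxa] at this
            exact Option.some.inj this
          subst hx'
          have c1 : BT.psi lam k q1 a ≤ BT.psi lam k l a := by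
            rw [mn a q1]
            exact mono a _ _ ((min_le_right _ _).trans hl1.le)
          have c2 : BT.psi lam k q2 b ≤ BT.psi lam k l b := by
            rw [mn b q2]
            exact mono b _ _ ((min_le_right _ _).trans hl2.le)
          omega
        | some xb =>
          have hb : b = BT.node xb y := by simpa [BT.res, hxb, hyb] using h2.symm
          have hb2 : BT.psi lam k q2 b = BT.gW k (lam b.set) + BT.hW k (min (lam b.set) q2) +
              BT.psi lam k (lam b.set) xb + BT.psi lam k (lam b.set) y := by
            rw [hb]; rfl
          have i1 := ihx' a xb q1 (lam b.set) hxa hxb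
          have i2 := mono y _ _ hl2.le
          have i3 := hW_mono k (min (lam b.set) q2) (lam b.set) (min_le_left _ _)
          rw [hb2]
          omega
      | some ya =>
        have ha : a = BT.node xa ya := by simpa [BT.res, hxa, hya] using h1.symm
        have ha2 : BT.psi lam k q1 a = BT.gW k (lam a.set) + BT.hW k (min (lam a.set) q1) +
            BT.psi lam k (lam a.set) xa + BT.psi lam k (lam a.set) ya := by
          rw [ha]; rfl
        have i3 := hW_mono k (min (lam a.set) q1) (lam a.set) (min_le_left _ _)
        cases hxb : x.res Yᶜ with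
        | none =>
          have hx' : xa = x := by
            have := nC x hxb
            rw [hxa] at this
            exact Option.some.inj this
          cases hyb : y.res Yᶜ with
          | none => simp [BT.res, hxb, hyb] at h2
          | some yb =>
            have hb : b = yb := by simpa [BT.res, hxb, hyb] using h2.symm
            have i1 := ihy' ya yb (lam a.set) q2 hya hyb
            have i2 := mono x _ _ hl1.le
            rw [ha2, hx', hb]
            omega
        | some xb =>
          cases hyb : y.res Yᶜ with
          | none =>
            have hy' : ya = y := by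
              have := nC y hyb
              rw [hya] at this
              exact Option.some.inj this
            have hb : b = xb := by simpa [BT.res, hxb, hyb] using h2.symm
            have i1 := ihx' xa xb (lam a.set) q2 hxa hxb
            have i2 := mono y _ _ hl1.le
            rw [ha2, hy', hb]
            omega
          | some yb =>
            have hb : b = BT.node xb yb := by simpa [BT.res, hxb, hyb] using h2.symm
            have hb2 : BT.psi lam k q2 b = BT.gW k (lam b.set) + BT.hW k (min (lam b.set) q2) +
                BT.psi lam k (lam b.set) xb + BT.psi lam k (lam b.set) yb := by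
              rw [hb]; rfl
            have i4 := hW_mono k (min (lam b.set) q2) (lam b.set) (min_le_left _ _)
            have i1 := ihx' xa xb (lam a.set) (lam b.set) hxa hxb
            have i2 := ihy' ya yb (lam a.set) (lam b.set) hya hyb
            rw [ha2, hb2]
            omega

end Pool.Agent.Helper64.IG.PkRSPL'
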