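import Pool.Agent.Helper64.IG.Main
import Pool.Agent.Helper64.IG.RSPL
import Pool.Agent.Helper28.IG.LK

universe u

namespace Pool.Agent.Helper64.IG

theorem final (k K : Type u) [Field k] [Field K] [Algebra k K] (w : ℕ) :
    IsZClosed k (BW K w) ∧ NStable Set.univ (BW K w) ∧
      ∀ C : ℕ → Set (Pt K), (∀ j, IsZClosed k (C j)) → (∀ j, NStable {1, -1} (C j)) →
        Antitone C → C 0 ⊆ BW K w → ∃ j₀, ∀ j ≥ j₀, C j = C j₀ :=
  all PkLK.lk PkRSPL'.rspl k K w

end Pool.Agent.Helper64.IG
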