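import Pool.Agent.Helper64.IG.Goals

/-! CT: the core theorem. -/

universe u

namespace Pool.Agent.Helper64.IG.PkCT

open Module MvPolynomial

/-- The tensor of a tree. -/
noncomputable def evz {K : Type u} [Field K] {w : ℕ} (T : Tr (Var w → K)) (b : List Bool) : K :=
  if b.length = T.leaves then ev w T (zi w) b else 0

/-- The decorations of the skeleton `σ` that embed in good trees with tensor in `Y j`. -/
def YY {K : Type u} [Field K] (w : ℕ) (Y : ℕ → ℕ → Set (List Bool → K)) (j : ℕ)
    (σ : Tr Unit) : Set (Fin σ.size × Var w → K) :=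
  {V | ∃ T : Tr (Var w → K), Good T ∧ Tr.Emb (fun a b => a = b) (σ.deco (dat V)) T ∧
    evz T ∈ Y j T.leaves}

/-- The vanishing ideal. -/
def VI {K : Type u} [Field K] {τ : Type} (A : Set (τ → K)) : Ideal (MvPolynomial τ K) where
  carrier := {P | ∀ V ∈ A, eval V P = 0}
  add_mem' := by
    intro a b ha hb V hV
    rw [map_add, ha V hV, hb V hV, add_zero]
  zero_mem' := by
    intro V _
    exact map_zero _
  smul_mem' := by
    intro c x hx V hV
    rw [smul_eq_mul, map_mul, hx V hV, mul_zero]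

theorem mem_VI {K : Type u} [Field K] {τ : Type} (A : Set (τ → K)) (P : MvPolynomial τ K) :
    P ∈ VI A ↔ ∀ V ∈ A, eval V P = 0 := Iff.rfl

theorem emb_comp (nat : G_NAT.{u}) {K : Type u} [Field K] {w : ℕ} (σ τ : Tr Unit)
    (φ : Fin σ.size → Fin τ.size) (hφ : φ ∈ Hom σ τ) (V : Fin τ.size × Var w → K) :
    Tr.Emb (fun a b : Var w → K => a = b) (σ.deco (dat (V ∘ Prod.map φ id))) (τ.deco (dat V)) := by
  obtain ⟨_, n2, n3, n4, _⟩ := nat
  have h := n4 (Var w → K) (dat V) _ _ hφ
  rw [n2, n2] at h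
  have e : σ.deco (fun n => dat V (ext φ n)) = σ.deco (dat (V ∘ Prod.map φ id)) := by
    apply n3
    intro n hn
    funext v
    have h1 : ext φ n < τ.size := by
      unfold ext
      rw [dif_pos hn]
      exact (φ ⟨n, hn⟩).2
    unfold dat
    rw [dif_pos h1, dif_pos hn]
    simp only [Function.comp_apply, Prod.map_apply, id_eq]
    congr 2
    apply Fin.ext
    show ext φ n = _
    unfold ext
    rw [dif_pos hn]
  rw [e] at h
  exact h

theorem plu_eq_ft {K : Type u} [Field K] {p : ℕ} (l : List (Fin p → K)) (b : List Bool) :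
    plu l b = ft (fun a : Fin p → (Fin p → K) => Matrix.det (fun i j => a j i)) l b := by
  unfold plu ft dl
  rfl

theorem iact_plu (sg : G_SG.{u, u}) {K : Type u} [Field K] {p : ℕ} (c : K)
    (l : List (Fin p → K)) (ρ : List (Fin l.length)) (h1 : ρ.Nodup) (h2 : ρ.length = l.length) :
    iact ρ (fun b => c * plu (ρ.map l.get) b) = fun b => c * plu l b := by
  have h := sg K (Fin p → K) p (fun a : Fin p → (Fin p → K) => Matrix.det (fun i j => a j i))
    (by
      intro a π
      have := Matrix.det_permute' π (fun i j => a j i)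
      exact this) l.length l.get ρ h1 h2
  funext b
  have hb := congrFun h b
  rw [List.ofFn_get] at hb
  rw [plu_eq_ft l b, ← hb]
  unfold iact
  by_cases hl : b.length = l.length
  · rw [if_pos hl, if_pos hl]
    have e := plu_eq_ft (ρ.map l.get) (ρ.map fun i => b.getD i.val false)
    show _ * (c * plu (ρ.map l.get) (ρ.map fun i => b.getD i.val false)) = c * (_ * _)
    rw [e]
    ring
  · rw [if_neg hl, if_neg hl, mul_zero]

theorem ct (tr : G_TR.{u}) (tw : G_TW) (eh : G_EH) (hm : G_HM) (nat : G_NAT.{u})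
    (nat0 : G_NAT.{0}) (gb : G_GB.{u}) (la : G_LA.{u}) (sl : G_SL.{u}) (pe : G_PE.{u})
    (sg : G_SG.{u, u}) (gt : G_GT.{u}) : G_CT.{u} := by
  intro K _ w Y hY
  classical
  -- monotonicity of Y
  have hYm : ∀ i j, i ≤ j → ∀ m, Y j m ⊆ Y i m := by
    intro i j hij m
    induction hij with
    | refl => exact subset_rfl
    | step h ih => exact (hY.anti _ m).trans ih
  obtain ⟨j0, hj0⟩ := gb K {σ : Tr Unit // σ.LabLe w} (Var w) (fun σ => σ.1.size)
    (fun σ τ => Hom σ.1 τ.1) (fun σ τ φ hφ => hm σ.1 τ.1 φ hφ)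
    (by
      intro s e
      obtain ⟨i, j, hij, hE⟩ := tw (Var w → ℕ) (fun a b => a ≤ b) (fun x => le_rfl)
        (fun x y z h1 h2 => h1.trans h2) (WellQuasiOrderedLE.wqo) w
        (fun i => (s i).1.deco fun n v => if h : n < (s i).1.size then e i ⟨n, h⟩ v else 0)
        (fun i => ((nat0.2.2.2.2.2.1 (Var w → ℕ) (s i).1 _).2.2.2 w).2 (s i).2)
      obtain ⟨φ, hφ, hφ2⟩ := eh (Var w → ℕ) (Var w → ℕ) (fun a b => a ≤ b) _ _ _ _ hE
      refine ⟨i, j, hij, φ, hφ, fun a v => ?_⟩
      have h := hφ2 a v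
      simp only [Fin.is_lt, dite_true] at h
      exact h)
    (fun j σ => VI (YY w Y j σ.1))
    (by
      intro j σ P hP V hV
      obtain ⟨T, h1, h2, h3⟩ := hV
      exact hP V ⟨T, h1, h2, hY.anti j _ h3⟩)
    (by
      intro j σ τ φ hφ f hf V hV
      obtain ⟨T, h1, h2, h3⟩ := hV
      rw [eval_rename]
      apply hf
      refine ⟨T, h1, ?_, h3⟩
      exact tr _ _ _ _ _ _ (fun x y z h1 h2 => h1.trans h2) _ _ _
        (emb_comp nat σ.1 τ.1 φ hφ V) h2)
  refine ⟨j0, ?_⟩
  intro j hj m hm1 P hP z hz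
  by_cases hz0 : z = 0
  · rw [hz0]
    exact hP 0 (hY.zero j m)
  obtain ⟨p, c, l, hc, hlm, hr, hD, hzl, hρ⟩ := hY.rep j0 m z hm1 hz hz0
  subst hlm
  have hl : l ≠ [] := by
    rintro rfl
    simp at hm1
  obtain ⟨ρ, T, hρ1, hρ2, hT1, hT2, hT3, hT4⟩ := gt K w p c l hc hl hr hD
  have hTz : evz T = fun b => c * plu (ρ.map l.get) b := by
    funext b
    unfold evz
    by_cases hb : b.length = T.leaves
    · rw [if_pos hb]
      exact hT4 b (by rw [hb, hT2])
    · rw [if_neg hb]
      have : plu (ρ.map l.get) b = 0 := by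
        unfold plu
        rw [if_neg]
        rw [List.length_map, hρ2, ← hT2]
        exact hb
      rw [this, mul_zero]
  obtain ⟨σ, V0, hV0, hs1, hs4⟩ : ∃ (σ : Tr Unit) (V0 : Fin σ.size × Var w → K),
      T = σ.deco (dat V0) ∧ σ.leaves = T.leaves ∧ ∀ w, σ.LabLe w ↔ T.LabLe w := by
    obtain ⟨V0, hV0⟩ := nat.2.2.2.2.1 K (Var w) T
    obtain ⟨hs1, hs2, hs3, hs4⟩ := nat.2.2.2.2.2.2.1 _ T
    exact ⟨_, V0, hV0, hs1, hs4⟩
  have hσw : σ.LabLe w := (hs4 w).2 hT1
  have hV0m : V0 ∈ YY w Y j0 σ := by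
    refine ⟨T, hT3, ?_, ?_⟩
    · rw [← hV0]
      exact nat.2.2.2.2.2.2.2 _ T
    · rw [hTz, hT2]
      exact hρ ρ hρ1 hρ2
  choose Q hQ using fun b : List Bool => pe K w σ (zi w) b
  set R : MvPolynomial (Fin σ.size × Var w) K :=
    bind₁ (fun b : Fin l.length → Bool =>
      C (sgnl ρ (ρ.map fun i : Fin l.length => (List.ofFn b).getD i.val false)) *
        Q (ρ.map fun i : Fin l.length => (List.ofFn b).getD i.val false)) P with hRdef
  have hRe : ∀ V : Fin σ.size × Var w → K, eval V R =
      eval (fun b => iact ρ (evz (σ.deco (dat V))) (List.ofFn b)) P := by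
    intro V
    rw [hRdef, ← MvPolynomial.coe_aeval_eq_eval, ← MvPolynomial.coe_aeval_eq_eval]
    show (aeval V) ((bind₁ _) P) = _
    rw [aeval_bind₁]
    show _ = (aeval _) P
    congr 1
    apply congrArg
    funext b
    have hlen : (σ.deco (dat V)).leaves = l.length := by
      rw [(nat.2.2.2.2.2.1 _ σ (dat V)).1, hs1, hT2]
    unfold iact evz
    rw [if_pos (by simp), if_pos (by rw [List.length_map, hρ2, hlen])]
    rw [map_mul]
    have ea : ∀ q : MvPolynomial (Fin σ.size × Var w) K, (aeval V) q = eval V q := by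
      intro q
      rw [← MvPolynomial.coe_aeval_eq_eval]
      rfl
    rw [ea, ea, eval_C, hQ]
  have hRI : R ∈ VI (YY w Y j σ) := by
    intro V hV
    rw [hRe V]
    obtain ⟨T', h1, h2, h3⟩ := hV
    obtain ⟨pat, hp1, hp2, hp3⟩ := la K w _ T' h1 h2
    have hlen : (σ.deco (dat V)).leaves = l.length := by
      rw [(nat.2.2.2.2.2.1 _ σ (dat V)).1, hs1, hT2]
    have h4 := sl K (Y j) (hY.len j) (fun m i c z hi hz => hY.slice j m i c z hi hz) pat (evz T')
      (by rw [hp1]; exact h3)
    have hfl : ∀ (pt : List (Option Bool)) (bs : List Bool), bs.length = pt.count none →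
        (fill pt bs).length = pt.length := by
      intro pt
      induction pt with
      | nil => intro bs hbs; simp [fill]
      | cons o pt ih =>
        intro bs hbs
        cases o with
        | none =>
          cases bs with
          | nil => simp at hbs
          | cons b bs =>
            have : bs.length = pt.count none := by simpa using hbs
            simp [fill, ih bs this]
        | some c =>
          have : bs.length = pt.count none := by simpa using hbs
          simp [fill, ih bs this]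
    have h5 : (fun bs => if bs.length = pat.count none then evz T' (fill pat bs) else 0) =
        evz (σ.deco (dat V)) := by
      funext bs
      unfold evz
      by_cases hb : bs.length = pat.count none
      · rw [if_pos hb, if_pos (by rw [hfl pat bs hb, hp1]), if_pos (by rw [hb, hp2])]
        exact (hp3 _ bs (by rw [hb, hp2])).symm
      · rw [if_neg hb, if_neg (by rw [← hp2]; exact hb)]
    rw [h5, hp2, hlen] at h4
    exact hP _ (hY.act j l.length ρ _ hρ1 hρ2 h4)
  have hI := hj0 j hj ⟨σ, hσw⟩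
  have hR0 : R ∈ VI (YY w Y j0 σ) := by
    rw [← hI]
    exact hRI
  have h6 := hR0 V0 hV0m
  rw [hRe V0] at h6
  have h7 : iact ρ (evz (σ.deco (dat V0))) = z := by
    rw [← hV0, hTz, hzl]
    exact iact_plu sg c l ρ hρ1 hρ2
  rw [h7] at h6
  exact h6

end Pool.Agent.Helper64.IG.PkCT
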