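import Mathlib

/-!
# The affine infinite Grassmannian and its locus of branch-width at most `w`

Definitions used in the statement of `MP_d01c92_ag.BranchWidth`.
-/

open scoped BigOperators

namespace Pool.Agent.Helper64.IG

/-- The basis of `V_{n,p}`: `inl i` is `x_{-(i+1)}`, `inr j` is `x_{j+1}`. -/
abbrev Ix (n p : ℕ) : Type := Fin n ⊕ Fin p

/-- The inclusion of the basis of `V_{n,p}` in that of `V_{m,q}`. -/
def inc {n p m q : ℕ} (hn : n ≤ m) (hp : p ≤ q) : Ix n p → Ix m q :=
  Sum.map (Fin.castLE hn) (Fin.castLE hp)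

/-- A `p`-form `ω` on `V_{n,p}`, given by its values `ω(x_{a 0}, …, x_{a (p-1)})`. -/
abbrev Form (K : Type*) (n p : ℕ) : Type _ := (Fin p → Ix n p) → K

/-- `ω` is decomposable: a multiple of `φ_1 ∧ … ∧ φ_p` with linear forms `φ_i`. -/
def IsDec {K : Type*} [Field K] {n p : ℕ} (ω : Form K n p) : Prop :=
  ∃ (c : K) (φ : Fin p → Ix n p → K), ∀ a, ω a = c * Matrix.det (fun i j => φ i (a j))

/-- Restriction of `p`-forms from `V_{n+1,p}` to `V_{n,p}`. -/
def xi {K : Type*} {n p : ℕ} (ω : Form K (n + 1) p) : Form K n p :=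
  fun a => ω (inc (Nat.le_succ n) le_rfl ∘ a)

/-- Interior multiplication with `x_{p+1}`, followed by restriction to `V_{n,p}`. -/
def theta {K : Type*} {n p : ℕ} (ω : Form K n (p + 1)) : Form K n p :=
  fun a => ω (Fin.cons (Sum.inr (Fin.last p)) (inc le_rfl (Nat.le_succ p) ∘ a))

/-- The `K`-points of the affine infinite Grassmannian `lim Gr~(p, V_{n,p}^*)`. -/
@[ext] structure Pt (K : Type*) [Field K] where
  x : ∀ n p : ℕ, Form K n p
  dec : ∀ n p, IsDec (x n p)
  xi_eq : ∀ n p, xi (x (n + 1) p) = x n p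
  theta_eq : ∀ n p, theta (x n (p + 1)) = x n p

/-- A polynomial with coefficients in `k` in the coordinates of some level `(n, p)`. -/
structure Eqn (k : Type*) [Field k] where
  n : ℕ
  p : ℕ
  f : MvPolynomial (Fin p → Ix n p) k

/-- The equation holds at the point. -/
def Sat {k K : Type*} [Field k] [Field K] [Algebra k K] (x : Pt K) (e : Eqn k) : Prop :=
  MvPolynomial.aeval (x.x e.n e.p) e.f = 0

/-- Zariski-closed sets of `K`-points defined over `k`. -/
def IsZClosed (k : Type*) {K : Type*} [Field k] [Field K] [Algebra k K] (C : Set (Pt K)) : Prop :=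
  ∃ S : Set (Eqn k), C = {x | ∀ e ∈ S, Sat x e}

/-- An element of `N(V_{n,p})`: `g x_i = t_i x_{σ i}`, with determinant `1`. -/
structure Mono (K : Type*) [Field K] (n p : ℕ) where
  σ : Equiv.Perm (Ix n p)
  t : Ix n p → K
  det : ((Equiv.Perm.sign σ : ℤ) : K) * ∏ i, t i = 1

/-- The permutation `σ`, extended by the identity to the basis of `V_{m,q}`. -/
noncomputable def Mono.s {K : Type*} [Field K] {n p m q : ℕ} (g : Mono K n p) (hn : n ≤ m)
    (hp : p ≤ q) (i : Ix m q) : Ix m q := by
  classical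
  exact if h : ∃ j, inc hn hp j = i then inc hn hp (g.σ h.choose) else i

/-- The scalars `t_i`, extended by `1` to the basis of `V_{m,q}`. -/
noncomputable def Mono.c {K : Type*} [Field K] {n p m q : ℕ} (g : Mono K n p) (hn : n ≤ m)
    (hp : p ≤ q) (i : Ix m q) : K := by
  classical
  exact if h : ∃ j, inc hn hp j = i then g.t h.choose else 1

/-- `y = g^* x` on all levels `(m, q) ≥ (n, p)`, hence everywhere. -/
def IsPull {K : Type*} [Field K] {n p : ℕ} (g : Mono K n p) (x y : Pt K) : Prop :=
  ∀ (m q : ℕ) (hm : n ≤ m) (hq : p ≤ q) (a : Fin q → Ix m q),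
    y.x m q a = (∏ j, g.c hm hq (a j)) * x.x m q (g.s hm hq ∘ a)

/-- Stability under the elements of `N(∞)` whose nonzero entries `t_i` lie in `T`. -/
def NStable {K : Type*} [Field K] (T : Set K) (C : Set (Pt K)) : Prop :=
  ∀ (n p : ℕ) (g : Mono K n p), (∀ i, g.t i ∈ T) → ∀ x y : Pt K, IsPull g x y → x ∈ C → y ∈ C

/-- The rank function of the matroid of `ω` (bases: the supports of the nonzero coordinates). -/
noncomputable def rk {K : Type*} [Field K] {n p : ℕ} (ω : Form K n p) (X : Finset (Ix n p)) : ℕ := by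
  classical
  exact (Finset.univ.filter fun a => ω a ≠ 0).sup
    fun a => (Finset.univ.filter fun j => a j ∈ X).card

/-- The connectivity function `r(X) + r(E - X) - r(E)`. -/
noncomputable def conn {K : Type*} [Field K] {n p : ℕ} (ω : Form K n p) (X : Finset (Ix n p)) : ℕ :=
  rk ω X + rk ω Xᶜ - p

/-- `X` is the set of leaves of a rooted binary tree all of whose displayed sets `Y` satisfy
`lam Y ≤ w`. -/
inductive Dec {E : Type*} [DecidableEq E] (lam : Finset E → ℕ) (w : ℕ) : Finset E → Prop
  | single (e : E) : lam {e} ≤ w → Dec lam w {e}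
  | join (A B : Finset E) : Disjoint A B → Dec lam w A → Dec lam w B → lam (A ∪ B) ≤ w →
      Dec lam w (A ∪ B)

/-- Branch-width at most `w`. -/
def BWLe {K : Type*} [Field K] {n p : ℕ} (w : ℕ) (ω : Form K n p) : Prop :=
  Dec (conn ω) w Finset.univ

/-- The points all of whose images in the finite Grassmannians have branch-width at most `w`. -/
def BW (K : Type*) [Field K] (w : ℕ) : Set (Pt K) :=
  {x | ∀ n p : ℕ, 1 ≤ n → 1 ≤ p → BWLe w (x.x n p)}

end Pool.Agent.Helper64.IG
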