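import Pool.Agent.Helper64.IG.Goals

/-! FIN: from the core theorem to the noetherianity statement. -/

universe u

namespace Pool.Agent.Helper64.IG.PkFIN

open Module MvPolynomial

/-! ### Alternation of decomposable forms -/

theorem dec_perm {K : Type u} [Field K] {n p : ℕ} {ω : Form K n p} (h : IsDec ω)
    (a : Fin p → Ix n p) (π : Equiv.Perm (Fin p)) :
    ω (a ∘ π) = ((Equiv.Perm.sign π : ℤ) : K) * ω a := by
  obtain ⟨c, φ, hφ⟩ := h
  rw [hφ, hφ]
  have := Matrix.det_permute' π (Matrix.of fun i j => φ i (a j))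
  have e : (Matrix.of fun i j => φ i (a j)).submatrix id π =
      Matrix.of (fun i j => φ i ((a ∘ π) j)) := rfl
  rw [e] at this
  show c * Matrix.det (Matrix.of fun i j => φ i ((a ∘ π) j)) =
    _ * (c * Matrix.det (Matrix.of fun i j => φ i (a j)))
  rw [this]
  ring

theorem dec_inj {K : Type u} [Field K] {n p : ℕ} {ω : Form K n p} (h : IsDec ω)
    (a : Fin p → Ix n p) (ha : ¬ Function.Injective a) : ω a = 0 := by
  obtain ⟨c, φ, hφ⟩ := h
  rw [hφ]
  have : ∃ i j, a i = a j ∧ i ≠ j := by
    by_contra hcon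
    apply ha
    intro i j hij
    by_contra hne
    exact hcon ⟨i, j, hij, hne⟩
  obtain ⟨i, j, hij, hne⟩ := this
  have h0 : Matrix.det (fun i j => φ i (a j)) = 0 :=
    Matrix.det_zero_of_column_eq hne (fun r => by rw [hij])
  rw [h0, mul_zero]

theorem sel_filter {α : Type} (L : List α) (q : α → Bool) : sel L (L.map q) = L.filter q := by
  induction L with
  | nil => rfl
  | cons a L ih =>
    rw [List.map_cons, List.filter_cons]
    cases hq : q a with
    | true => simp [sel, ih]
    | false => simp [sel, ih]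

theorem sel_map {α β : Type} (g : α → β) (L : List α) (b : List Bool) :
    sel (L.map g) b = (sel L b).map g := by
  induction L generalizing b with
  | nil => cases b <;> rfl
  | cons a L ih =>
    cases b with
    | nil => rfl
    | cons c b => cases c <;> simp [sel, ih]

theorem len_sel {α : Type} (L : List α) (b : List Bool) (h : b.length = L.length) :
    (sel L b).length = b.count true := by
  induction L generalizing b with
  | nil =>
    cases b with
    | nil => rfl
    | cons c b => simp at h
  | cons a L ih =>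
    cases b with
    | nil => simp at h
    | cons c b =>
      have h' : b.length = L.length := by simpa using h
      cases c <;> simp [sel, ih b h']

/-- Coordinates of a form are coordinates of its tensor. -/
theorem coord {K : Type u} [Field K] {n p : ℕ} (L0 : List (Ix n p)) (h1 : L0.Nodup)
    (h2 : L0.length = n + p) (a : Fin p → Ix n p) :
    ∃ (ε : K) (β : Fin (n + p) → Bool), (ε ≠ 0 → (List.ofFn β).count true = p) ∧
      ∀ ω : Form K n p, IsDec ω → ω a = ε * ft ω L0 (List.ofFn β) := by
  classical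
  by_cases ha : Function.Injective a
  · set q : Ix n p → Bool := fun e => decide (e ∈ Set.range a) with hq
    have hall : ∀ e : Ix n p, e ∈ L0 := by
      have hc : L0.toFinset = Finset.univ := by
        apply Finset.eq_univ_of_card
        rw [List.toFinset_card_of_nodup h1, h2]
        simp [Ix]
      intro e
      have : e ∈ L0.toFinset := by rw [hc]; exact Finset.mem_univ _
      simpa using this
    have hb : (L0.map q).length = n + p := by rw [List.length_map, h2]
    set β : Fin (n + p) → Bool := fun i => (L0.map q).get (Fin.cast hb.symm i) with hβ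
    have hβl : List.ofFn β = L0.map q := by
      apply List.ext_get
      · simp [h2]
      · intro i hi1 hi2
        simp [hβ]
    have hs : sel L0 (List.ofFn β) = L0.filter q := by rw [hβl, sel_filter]
    have hnd : (L0.filter q).Nodup := h1.filter _
    have hcard : (L0.filter q).length = p := by
      have e1 : (L0.filter q).toFinset = Finset.univ.image a := by
        ext e
        simp only [List.mem_toFinset, List.mem_filter, Finset.mem_image, Finset.mem_univ, true_and,
          hq, decide_eq_true_eq, Set.mem_range]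
        constructor
        · rintro ⟨_, h⟩
          exact h
        · intro h
          exact ⟨hall e, h⟩
      have e2 := List.toFinset_card_of_nodup hnd
      rw [e1, Finset.card_image_of_injective _ ha] at e2
      simpa using e2.symm
    have hcard' : (sel L0 (List.ofFn β)).length = p := by rw [hs, hcard]
    set s : Fin p → Ix n p := fun j => (sel L0 (List.ofFn β)).get (Fin.cast hcard'.symm j) with hsd
    have hsi : Function.Injective s := by
      intro i j hij
      have hnd' : (sel L0 (List.ofFn β)).Nodup := by rw [hs]; exact hnd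
      have := (List.nodup_iff_injective_get.1 hnd') hij
      exact Fin.ext (by simpa using congrArg Fin.val this)
    have hmem : ∀ j, ∃ i, s i = a j := by
      intro j
      have : a j ∈ sel L0 (List.ofFn β) := by
        rw [hs, List.mem_filter]
        exact ⟨hall _, by simp [hq]⟩
      obtain ⟨i, hi⟩ := List.mem_iff_get.1 this
      exact ⟨Fin.cast hcard' i, by rw [← hi]; rfl⟩
    choose π0 hπ0 using hmem
    have hπi : Function.Injective π0 := by
      intro i j hij
      apply ha
      rw [← hπ0 i, ← hπ0 j, hij]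
    set π : Equiv.Perm (Fin p) := Equiv.ofBijective π0 (Finite.injective_iff_bijective.1 hπi)
    have hae : a = s ∘ π := by
      funext j
      exact (hπ0 j).symm
    refine ⟨((Equiv.Perm.sign π : ℤ) : K), β, ?_, ?_⟩
    · intro _
      rw [← len_sel L0 _ (by simp [h2]), hcard']
    · intro ω hω
      have e1 : ft ω L0 (List.ofFn β) = ω s := by
        unfold ft
        rw [if_pos (by simp [h2]), dif_pos hcard']
      rw [e1, ← dec_perm hω s π, ← hae]
  · refine ⟨0, fun _ => true, fun h => absurd rfl h, ?_⟩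
    intro ω hω
    rw [dec_inj hω a ha, zero_mul]

/-- Tensors along two complete lists. -/
theorem change (mono : G_MONO.{u}) {K : Type u} [Field K] (C : Set (Pt K))
    (hC : NStable {1, -1} C) {n p : ℕ} (x : Pt K) (hx : x ∈ C) (L L0 : List (Ix n p))
    (h1 : L.Nodup) (h2 : L.length = n + p) (h3 : L0.Nodup) (h4 : L0.length = n + p) :
    ∃ y ∈ C, ft (x.x n p) L = ft (y.x n p) L0 := by
  classical
  -- the permutation sending `L0[i]` to `L[i]`
  have hcard : Fintype.card (Ix n p) = n + p := by simp [Ix]
  have b1 : Function.Bijective L.get := by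
    have hi := List.nodup_iff_injective_get.1 h1
    rw [Fintype.bijective_iff_injective_and_card]
    exact ⟨hi, by rw [hcard]; simp [h2]⟩
  have b0 : Function.Bijective L0.get := by
    have hi := List.nodup_iff_injective_get.1 h3
    rw [Fintype.bijective_iff_injective_and_card]
    exact ⟨hi, by rw [hcard]; simp [h4]⟩
  set e1 := Equiv.ofBijective _ b1
  set e0 := Equiv.ofBijective _ b0
  set σ : Equiv.Perm (Ix n p) := e0.symm.trans ((finCongr (h4.trans h2.symm)).trans e1)
  have hL : L = L0.map σ := by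
    apply List.ext_get
    · simp [h2, h4]
    · intro i hi1 hi2
      have hi0 : i < L0.length := by rw [h4, ← h2]; exact hi1
      simp only [List.get_eq_getElem, List.getElem_map]
      have : e0.symm (L0[i]) = ⟨i, hi0⟩ := by
        rw [Equiv.symm_apply_eq]
        rfl
      show _ = e1 (finCongr (h4.trans h2.symm) (e0.symm (L0[i])))
      rw [this]
      rfl
  obtain ⟨y, hy, hy2⟩ := mono K C hC x hx n p σ (fun _ => 1) (fun _ => Or.inl rfl)
  refine ⟨y, hy, ?_⟩
  funext b
  unfold ft
  have hs : sel L b = (sel L0 b).map σ := by rw [hL, sel_map]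
  by_cases hb : b.length = L.length
  · rw [if_pos hb, if_pos (by rw [hb, h2, h4])]
    by_cases hlen : (sel L0 b).length = p
    · have hlen' : (sel L b).length = p := by rw [hs, List.length_map, hlen]
      rw [dif_pos hlen, dif_pos hlen', hy2]
      simp only [Finset.prod_const_one, one_mul]
      congr 1
      funext j
      simp only [Function.comp_apply, List.get_eq_getElem]
      have : (sel L b)[(Fin.cast hlen'.symm j : ℕ)]'(by simp [hlen']) =
          ((sel L0 b).map σ)[(Fin.cast hlen'.symm j : ℕ)]'(by simp [hlen]) := by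
        congr 1
      rw [this, List.getElem_map]
      rfl
    · rw [dif_neg hlen, dif_neg]
      rw [hs, List.length_map]
      exact hlen
  · rw [if_neg hb, if_neg]
    rw [h4, ← h2]
    exact hb

/-- Increasing sequences of upper sets of `ℕ × ℕ` stabilize. -/
theorem dickson (B : ℕ → Set (ℕ × ℕ)) (hm : ∀ j, B j ⊆ B (j + 1))
    (hu : ∀ j a b, a ∈ B j → a ≤ b → b ∈ B j) : ∃ j0, ∀ j, j0 ≤ j → B j = B j0 := by
  have hmm : ∀ i j, i ≤ j → B i ⊆ B j := by
    intro i j hij
    induction hij with
    | refl => exact subset_rfl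
    | step h ih => exact ih.trans (hm _)
  by_contra hcon
  push Not at hcon
  have h1 : ∀ i, ∃ j, i ≤ j ∧ ∃ a, a ∈ B j ∧ a ∉ B i := by
    intro i
    obtain ⟨j, hij, hne⟩ := hcon i
    refine ⟨j, hij, ?_⟩
    by_contra hc
    apply hne
    apply Set.Subset.antisymm _ (hmm i j hij)
    intro a ha
    by_contra hna
    exact hc ⟨a, ha, hna⟩
  choose g hg a ha hna using h1
  set s : ℕ → ℕ := fun i => g^[i] 0 with hs
  have hs1 : ∀ i, s (i + 1) = g (s i) := fun i => Function.iterate_succ_apply' g i 0
  have hsm : ∀ i j, i ≤ j → s i ≤ s j := by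
    intro i j hij
    induction hij with
    | refl => exact le_rfl
    | step h ih => rw [hs1]; exact ih.trans (hg _)
  obtain ⟨i, j, hij, hle⟩ := (WellQuasiOrderedLE.wqo : WellQuasiOrdered
    (fun x y : ℕ × ℕ => x ≤ y)) (fun i => a (s i))
  have h2 : a (s i) ∈ B (s j) := by
    apply hmm (s (i + 1)) (s j) (hsm _ _ hij)
    rw [hs1]
    exact ha _
  exact hna (s j) (hu _ _ _ h2 hle)

theorem ren_xi {k K : Type u} [Field k] [Field K] [Algebra k K] {n p : ℕ}
    (f : MvPolynomial (Fin p → Ix n p) k) (ω : Form K (n + 1) p) :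
    aeval ω (rename (fun a => inc (Nat.le_succ n) le_rfl ∘ a) f) = aeval (xi ω) f := by
  rw [aeval_rename]
  rfl

theorem ren_theta {k K : Type u} [Field k] [Field K] [Algebra k K] {n p : ℕ}
    (f : MvPolynomial (Fin p → Ix n p) k) (ω : Form K n (p + 1)) :
    aeval ω (rename (fun a => Fin.cons (Sum.inr (Fin.last p)) (inc le_rfl (Nat.le_succ p) ∘ a) :
      (Fin p → Ix n p) → (Fin (p + 1) → Ix n (p + 1))) f) = aeval (theta ω) f := by
  rw [aeval_rename]
  rfl

theorem tens_mono {K : Type u} [Field K] {C D : Set (Pt K)} (h : C ⊆ D) (m : ℕ) :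
    TensOf C m ⊆ TensOf D m := by
  rintro z (hz | ⟨x, hx, n, p, h1, L, h2, h3, h4⟩)
  · exact Or.inl hz
  · exact Or.inr ⟨x, h hx, n, p, h1, L, h2, h3, h4⟩

theorem tens_len {K : Type u} [Field K] {C : Set (Pt K)} {m : ℕ} {z : List Bool → K}
    (hz : z ∈ TensOf C m) (b : List Bool) (hb : b.length ≠ m) : z b = 0 := by
  rcases hz with hz | ⟨x, hx, n, p, h1, L, h2, h3, h4⟩
  · rw [hz]; rfl
  · rw [h4]
    unfold ft
    rw [if_neg]
    rw [h3]
    exact hb

/-- The transfer of equations. -/
theorem key (mono : G_MONO.{u}) {k K : Type u} [Field k] [Field K] [Algebra k K]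
    (C D : Set (Pt K)) (hC : NStable {1, -1} C) {n p : ℕ} (f : MvPolynomial (Fin p → Ix n p) k)
    (hct : ∀ P : MvPolynomial (Fin (n + p) → Bool) K,
      (∀ z ∈ TensOf C (n + p), eval (fun b => z (List.ofFn b)) P = 0) →
      ∀ z ∈ TensOf D (n + p), eval (fun b => z (List.ofFn b)) P = 0)
    (hf : ∀ x ∈ C, aeval (x.x n p) f = 0) (x : Pt K) (hx : x ∈ D) (hx0 : x.x n p ≠ 0) :
    aeval (x.x n p) f = 0 := by
  classical
  have hcard : Fintype.card (Ix n p) = n + p := by simp [Ix]
  set L0 : List (Ix n p) := Finset.univ.toList with hL0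
  have h3 : L0.Nodup := Finset.nodup_toList _
  have h4 : L0.length = n + p := by rw [hL0, Finset.length_toList, Finset.card_univ, hcard]
  choose ε β hβ hω using fun a => coord (K := K) L0 h3 h4 a
  obtain ⟨a0, ha0⟩ : ∃ a0, x.x n p a0 ≠ 0 := by
    by_contra hcon
    push Not at hcon
    exact hx0 (funext hcon)
  set P : MvPolynomial (Fin (n + p) → Bool) K :=
    bind₁ (fun a => MvPolynomial.C (ε a) * X (β a)) (map (algebraMap k K) f) * X (β a0) with hP
  have hev : ∀ ω : Form K n p, IsDec ω → eval (fun b => ft ω L0 (List.ofFn b)) P =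
      aeval ω f * ft ω L0 (List.ofFn (β a0)) := by
    intro ω hd
    rw [hP, map_mul, eval_X]
    congr 1
    have e1 : ∀ q : MvPolynomial (Fin (n + p) → Bool) K,
        eval (fun b => ft ω L0 (List.ofFn b)) q = aeval (fun b => ft ω L0 (List.ofFn b)) q := by
      intro q
      rw [← MvPolynomial.coe_aeval_eq_eval]
      rfl
    rw [e1, aeval_bind₁]
    have e2 : (fun a => (aeval fun b : Fin (n + p) → Bool => ft ω L0 (List.ofFn b))
        (MvPolynomial.C (ε a) * X (β a) : MvPolynomial (Fin (n + p) → Bool) K)) = ω := by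
      funext a
      rw [map_mul, aeval_X, hω a ω hd]
      congr 1
      simp
    rw [e2, aeval_map_algebraMap]
  have hvan : ∀ z ∈ TensOf C (n + p), eval (fun b => z (List.ofFn b)) P = 0 := by
    intro z hz
    rcases hz with hz | ⟨y, hy, n', p', h1, L, h2, h3', h4'⟩
    · rw [hz, hP, map_mul, eval_X]
      show _ * (0 : K) = 0
      rw [mul_zero]
    · by_cases hpp : p' = p
      · subst hpp
        have hnn : n' = n := by omega
        subst hnn
        obtain ⟨y', hy', he⟩ := change mono C hC y hy L L0 h2 h3' h3 h4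
        rw [h4', he, hev _ (y'.dec n' p'), hf y' hy', zero_mul]
      · have hε : ε a0 ≠ 0 := by
          intro h0
          apply ha0
          rw [hω a0 _ (x.dec n p), h0, zero_mul]
        have hz0 : z (List.ofFn (β a0)) = 0 := by
          rw [h4']
          unfold ft
          rw [if_pos (by simp [h3']), dif_neg]
          rw [len_sel _ _ (by simp [h3']), hβ a0 hε]
          exact fun h => hpp h.symm
        rw [hP, map_mul, eval_X]
        show _ * z (List.ofFn (β a0)) = 0
        rw [hz0, mul_zero]
  have h5 := hct P hvan (ft (x.x n p) L0) (Or.inr ⟨x, hx, n, p, rfl, L0, h3, h4, rfl⟩)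
  rw [hev _ (x.dec n p)] at h5
  have h6 : ft (x.x n p) L0 (List.ofFn (β a0)) ≠ 0 := by
    intro h0
    apply ha0
    rw [hω a0 _ (x.dec n p), h0, mul_zero]
  exact (mul_eq_zero.1 h5).resolve_right h6

theorem fin (ct : G_CT.{u}) (mono : G_MONO.{u}) (h2 : G_H2.{u}) (iac : G_IAC.{u})
    (rep : G_REP.{u}) (k K : Type u) [Field k] [Field K] [Algebra k K] (w : ℕ)
    (C : ℕ → Set (Pt K)) (hcl : ∀ j, IsZClosed k (C j)) (hst : ∀ j, NStable {1, -1} (C j))
    (hanti : Antitone C) (hbw : C 0 ⊆ BW K w) : ∃ j₀, ∀ j ≥ j₀, C j = C j₀ := by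
  classical
  have hsys : Sys w (fun j m => TensOf (C j) m) := by
    refine ⟨?_, ?_, ?_, ?_, ?_, ?_⟩
    · intro j m
      exact tens_mono (hanti (Nat.le_succ j)) m
    · intro j m
      exact Or.inl rfl
    · intro j m z b hz hb
      exact tens_len hz b hb
    · intro j m i c z hi hz
      exact h2 K (C j) (hst j) m i c z hi hz
    · intro j m ρ z h1 h2 h3
      exact iac K (C j) m ρ z h1 h2 h3
    · intro j m z hm hz hz0
      exact rep K w (C j) ((hanti (Nat.zero_le j)).trans hbw) m z hm hz hz0
  obtain ⟨j1, hj1⟩ := ct K w _ hsys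
  set B : ℕ → Set (ℕ × ℕ) := fun j => {a | ∃ f : MvPolynomial (Fin a.2 → Ix a.1 a.2) k,
    (∀ x ∈ C j, aeval (x.x a.1 a.2) f = 0) ∧ aeval (0 : Form K a.1 a.2) f ≠ 0} with hB
  have up1 : ∀ j n p, (n, p) ∈ B j → (n + 1, p) ∈ B j := by
    rintro j n p ⟨f, hf1, hf2⟩
    refine ⟨rename (fun a => inc (Nat.le_succ n) le_rfl ∘ a) f, ?_, ?_⟩
    · intro x hx
      show aeval (x.x (n + 1) p) _ = 0
      rw [ren_xi, x.xi_eq]
      exact hf1 x hx
    · show aeval (0 : Form K (n + 1) p) _ ≠ 0
      rw [ren_xi]
      exact hf2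
  have up2 : ∀ j n p, (n, p) ∈ B j → (n, p + 1) ∈ B j := by
    rintro j n p ⟨f, hf1, hf2⟩
    refine ⟨rename (fun a => Fin.cons (Sum.inr (Fin.last p)) (inc le_rfl (Nat.le_succ p) ∘ a) :
      (Fin p → Ix n p) → (Fin (p + 1) → Ix n (p + 1))) f, ?_, ?_⟩
    · intro x hx
      show aeval (x.x n (p + 1)) _ = 0
      rw [ren_theta, x.theta_eq]
      exact hf1 x hx
    · show aeval (0 : Form K n (p + 1)) _ ≠ 0
      rw [ren_theta]
      exact hf2
  have up3 : ∀ j n n' p, n ≤ n' → (n, p) ∈ B j → (n', p) ∈ B j := by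
    intro j n n' p h ha
    induction h with
    | refl => exact ha
    | step h ih => exact up1 _ _ _ ih
  have up4 : ∀ j n p p', p ≤ p' → (n, p) ∈ B j → (n, p') ∈ B j := by
    intro j n p p' h ha
    induction h with
    | refl => exact ha
    | step h ih => exact up2 _ _ _ ih
  have up : ∀ j a b, a ∈ B j → a ≤ b → b ∈ B j := by
    rintro j ⟨n, p⟩ ⟨n', p'⟩ ha ⟨hn, hp⟩
    exact up4 _ _ _ _ hp (up3 _ _ _ _ hn ha)
  obtain ⟨j2, hj2⟩ := dickson B (by
    rintro j a ⟨f, hf1, hf2⟩
    exact ⟨f, fun x hx => hf1 x (hanti (Nat.le_succ j) hx), hf2⟩) up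
  refine ⟨max j1 j2, ?_⟩
  intro j hj
  apply Set.Subset.antisymm (hanti hj)
  intro x hx
  obtain ⟨S, hS⟩ := hcl j
  rw [hS]
  rintro ⟨n, p, f⟩ he
  have hvan : ∀ y ∈ C j, aeval (y.x n p) f = 0 := by
    intro y hy
    rw [hS] at hy
    exact hy ⟨n, p, f⟩ he
  set f' := rename (fun a => inc (Nat.le_succ n) le_rfl ∘ a) f with hf'
  have hf'e : ∀ y : Pt K, aeval (y.x (n + 1) p) f' = aeval (y.x n p) f := by
    intro y
    rw [hf', ren_xi, y.xi_eq]
  show aeval (x.x n p) f = 0
  rw [← hf'e x]
  by_cases hx0 : x.x (n + 1) p = 0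
  · by_contra hne
    rw [hx0] at hne
    have hb : (n + 1, p) ∈ B j :=
      ⟨f', fun y hy => by show aeval (y.x (n + 1) p) f' = 0; rw [hf'e]; exact hvan y hy, hne⟩
    rw [hj2 j ((le_max_right _ _).trans hj), ← hj2 (max j1 j2) (le_max_right _ _)] at hb
    obtain ⟨f2, hf21, hf22⟩ := hb
    apply hf22
    have := hf21 x hx
    show aeval (0 : Form K (n + 1) p) f2 = 0
    rw [← hx0]
    exact this
  · refine key mono (C j) (C j1) (hst j) f' ?_ ?_ x (hanti (le_max_left _ _) hx) hx0
    · intro P hP
      exact hj1 j ((le_max_left _ _).trans hj) (n + 1 + p) (by omega) P hP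
    · intro y hy
      rw [hf'e]
      exact hvan y hy

end Pool.Agent.Helper64.IG.PkFIN
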