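import Pool.Agent.Helper64.IG.Goals

/-! GT: existence of good tree tensor networks for tensors of small branch-width. -/

universe u

namespace Pool.Agent.Helper64.IG.PkGT

open Module

theorem gt (sym : G_SYM.{u}) (ld : G_LD) (occ : G_OCC) (f1i : G_F1I.{u}) (lk : G_LK.{u})
    (ga : G_GA.{u}) : G_GT.{u} := by
  intro K _ w p c l hc hl hr hD
  obtain ⟨t, hset, hdisj, hw, hlink⟩ := ld (Fin l.length) (lamL l) w (sym K p l hr) hD
  obtain ⟨ho1, ho2, ho3, ho4, ho5, ho6, _⟩ := occ (Fin l.length) (lamL l) t
  have hnd : t.list.Nodup := ho2 hdisj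
  have hcard : t.list.length = l.length := by
    have h1 : t.list.toFinset = Finset.univ := by rw [ho1, hset]
    have h2 := List.toFinset_card_of_nodup hnd
    rw [h1] at h2
    simpa using h2.symm
  have hlv : (t.skel (lamL l)).leaves = l.length := by rw [ho3, hcard]
  have hlen : (t.list.map l.get).length = l.length := by simpa using hcard
  -- disjointness is inherited
  have hsubd : ∀ v t' : BT (Fin l.length), BT.Sub v t' → t'.Disj → v.Disj := by
    intro v t' h
    induction h with
    | refl => exact fun h => h
    | left b _ ih => exact fun h => ih h.2.1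
    | right a _ ih => exact fun h => ih h.2.2
  obtain ⟨T, hT1, hT2, hT3, hT4⟩ := ga K w (fun b => c * plu (t.list.map l.get) b)
    (t.skel (lamL l)) (ho5 w hw) (by
      rw [ho4, hset]
      unfold lamL rkS
      have h0 : {v | v ∈ l} = l.get '' ((Finset.univ : Finset (Fin l.length)) :
          Set (Fin l.length)) := by
        ext v
        simp only [Set.mem_ofPred_eq, Finset.coe_univ, Set.image_univ, Set.mem_range]
        constructor
        · intro hv
          obtain ⟨i, hi⟩ := List.mem_iff_get.1 hv
          exact ⟨i, hi⟩
        · rintro ⟨i, rfl⟩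
          exact List.get_mem _ _
      have h1 : rkl l = Module.finrank K (Submodule.span K (l.get ''
          ((Finset.univ : Finset (Fin l.length)) : Set (Fin l.length)))) := by
        rw [← h0]
        rfl
      rw [← h1, hr]
      simp)
    (by
      intro b hb
      have h1 : plu (t.list.map l.get) b = 0 := by
        unfold plu
        rw [if_neg]
        rw [hlen]
        rw [hlv] at hb
        exact hb
      show c * plu (t.list.map l.get) b = 0
      rw [h1, mul_zero])
    (by
      intro s i hs
      obtain ⟨v, L1, L2, hv1, rfl, hv3, hv4⟩ := ho6 0 s i hs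
      obtain ⟨hq1, hq2, hq3, hq4, hq5, hq6, hq7⟩ := occ (Fin l.length) (lamL l) v
      have hn : (L1 ++ v.list ++ L2).Nodup := by rw [← hv3]; exact hnd
      have hle : (L1 ++ v.list ++ L2).length = l.length := by rw [← hv3]; exact hcard
      have h := f1i K p c l hc hr L1 v.list L2 hn hle
      rw [← hv3] at h
      rw [hq3, hlv, hq4]
      rw [hq1] at h
      have : i = L1.length := by omega
      rw [this]
      exact h)
    (by
      intro s i f j hs hst
      obtain ⟨v, L1, L2, hv1, rfl, hv3, hv4⟩ := ho6 0 s i hs
      obtain ⟨hq1, hq2, hq3, hq4, hq5, hq6, hq7⟩ := occ (Fin l.length) (lamL l) v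
      obtain ⟨v', M1, M2, hv1', rfl, hv3', hv4'⟩ := hq7 i f j hst
      obtain ⟨hp1, hp2, hp3, hp4, hp5, hp6, hp7⟩ := occ (Fin l.length) (lamL l) v'
      have hn : (L1 ++ M1 ++ v'.list ++ M2 ++ L2).Nodup := by
        have h1 : L1 ++ M1 ++ v'.list ++ M2 ++ L2 = t.list := by
          rw [hv3, hv3']; simp
        rw [h1]; exact hnd
      have h1 : L1 ++ M1 ++ v'.list ++ M2 ++ L2 = t.list := by
        rw [hv3, hv3']; simp
      have hlab : ∀ (k : ℕ) (a b : BT (Fin l.length)), BT.Dn (lamL l) k a b → lamL l b.set = k := by
        intro k a b h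
        induction h with
        | here f hf => exact hf
        | left b _ _ ih => exact ih
        | right a _ _ ih => exact ih
      have hlab' : ∀ (a b : BT (Fin l.length)), BT.Step (lamL l) a b →
          lamL l b.set = lamL l a.set := by
        intro a b h
        cases h with
        | left b h => exact hlab _ _ _ h
        | right a h => exact hlab _ _ _ h
      have h2 := lk K p c l hc hr L1 M1 v'.list M2 L2 hn (by rw [h1]; exact hcard)
        (by rw [← hv3', hp1, hq1]; exact hlab' _ _ hv1')
        (by
          intro Y hY1 hY2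
          rw [← hv3', hq1] at hY2 ⊢
          rw [hp1] at hY1
          exact hlink v v' hv1 hv1' Y hY1 hY2)
      rw [h1] at h2
      rw [hq3, hp3, hlv]
      have e1 : i = L1.length := by omega
      have e2 : j = L1.length + M1.length := by omega
      rw [e1, e2]
      rw [← hv3'] at h2
      exact h2)
  refine ⟨t.list, T, hnd, hcard, hT1, ?_, hT3, ?_⟩
  · rw [hT2, hlv]
  · intro b hb
    exact hT4 b (by rw [hlv]; exact hb)

end Pool.Agent.Helper64.IG.PkGT
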