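import Pool.Agent.Helper64.IG.GT
import Pool.Agent.Helper64.IG.CT
import Pool.Agent.Helper64.IG.FIN
import Pool.Agent.Helper49.IG.TR
import Pool.Agent.Helper69.IG.TW
import Pool.Agent.Helper65.IG.EH
import Pool.Agent.Helper29.IG.HM
import Pool.Agent.Helper90.IG.NAT
import Pool.Agent.Helper13.IG.GB
import Pool.Agent.Helper99.IG.LA
import Pool.Agent.Helper90.IG.SL
import Pool.Agent.Helper86.IG.PE
import Pool.Agent.Helper9.IG.SG
import Pool.Agent.Helper17.IG.SPI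
import Pool.Agent.Helper49.IG.PAIR
import Pool.Agent.Helper85.IG.F2
import Pool.Agent.Helper62.IG.WIN
import Pool.Agent.Helper67.IG.TLK
import Pool.Agent.Helper29.IG.SYM
import Pool.Agent.Helper5.IG.F1I
import Pool.Agent.Helper89.IG.TF
import Pool.Agent.Helper74.IG.GA
import Pool.Agent.Helper69.IG.OCC
import Pool.Agent.Helper5.IG.RB
import Pool.Agent.Helper73.IG.SE
import Pool.Agent.Helper19.IG.SURG
import Pool.Agent.Helper65.IG.LD
import Pool.Agent.Helper93.IG.ACT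
import Pool.Agent.Helper99.IG.MONO
import Pool.Agent.Helper32.IG.H2
import Pool.Agent.Helper90.IG.IAC
import Pool.Agent.Helper74.IG.RK1
import Pool.Agent.Helper77.IG.REP
import Pool.Agent.Helper99.IG.CLB
import Pool.Agent.Helper85.IG.MIN
import Pool.Agent.Helper56.IG.NSB

/-! Assembly of all parts of the project IG. -/

universe u

namespace Pool.Agent.Helper64.IG

theorem all (lk : G_WIN.{u} → G_TLK → G_F1I.{u} → G_LK.{u}) (rspl : G_RB → G_RSPL)
    (k K : Type u) [Field k] [Field K] [Algebra k K] (w : ℕ) :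
    IsZClosed k (BW K w) ∧ NStable Set.univ (BW K w) ∧
      ∀ C : ℕ → Set (Pt K), (∀ j, IsZClosed k (C j)) → (∀ j, NStable {1, -1} (C j)) →
        Antitone C → C 0 ⊆ BW K w → ∃ j₀, ∀ j ≥ j₀, C j = C j₀ := by
  have hF2 : G_F2.{u} := PkF2.f2 PkSPI.spi PkPAIR.pair
  have hWIN : G_WIN.{u} := PkWIN.win hF2
  have hF1I : G_F1I.{u} := PkF1I.f1i hWIN
  have hLK : G_LK.{u} := lk hWIN PkTLK.tlk hF1I
  have hSE : G_SE := PkSE.se PkRB.rb (rspl PkRB.rb)
  have hLD : G_LD := PkLD.ld (PkSURG.surg hSE)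
  have hGT : G_GT.{u} := PkGT.gt PkSYM.sym hLD PkOCC.occ hF1I hLK (PkGA.ga PkTF.tf)
  have hCT : G_CT.{u} := PkCT.ct PkTR.tr (PkTW.tw PkTR.tr) PkEH.eh PkHM.hm PkNAT.nat PkNAT.nat
    PkGB.gb PkLA.la PkSL.sl PkPE.pe PkSG.sg hGT
  have hMONO : G_MONO.{u} := PkMONO.mono PkACT.act
  refine ⟨PkCLB.clb k K w, PkNSB.nsb PkMIN.mn K w, ?_⟩
  intro C h1 h2 h3 h4
  exact PkFIN.fin hCT hMONO (PkH2.h2 hMONO) (PkIAC.iac PkSG.sg) (PkREP.rep PkRK1.rk1) k K w C h1 h2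
    h3 h4

end Pool.Agent.Helper64.IG
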