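import Pool.Agent.Helper64.IG.Defs

/-!
# Auxiliary definitions: tensors indexed by bit lists, decorated binary trees
-/

open scoped BigOperators

namespace Pool.Agent.Helper64.IG

/-! ## Lists of vectors and their Plücker tensors -/

/-- The determinant of a list of vectors of `K^p` (zero if the list has not length `p`). -/
noncomputable def dl {K : Type*} [Field K] {p : ℕ} (l : List (Fin p → K)) : K :=
  if h : l.length = p then Matrix.det (fun i j : Fin p => l.get (Fin.cast h.symm j) i) else 0

/-- The sublist selected by the bits. -/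
def sel {α : Type*} : List α → List Bool → List α
  | a :: l, true :: b => a :: sel l b
  | _ :: l, false :: b => sel l b
  | _, _ => []

/-- The Plücker tensor of a list of vectors. -/
noncomputable def plu {K : Type*} [Field K] {p : ℕ} (l : List (Fin p → K)) (b : List Bool) : K :=
  if b.length = l.length then dl (sel l b) else 0

/-- The rank of a list of vectors. -/
noncomputable def rkl {K : Type*} [Field K] {p : ℕ} (l : List (Fin p → K)) : ℕ :=
  Module.finrank K (Submodule.span K {v | v ∈ l})

/-- The rank of the members of the list with index in `X`. -/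
noncomputable def rkS {K : Type*} [Field K] {p : ℕ} (l : List (Fin p → K))
    (X : Finset (Fin l.length)) : ℕ :=
  Module.finrank K (Submodule.span K (l.get '' (X : Set (Fin l.length))))

/-- The connectivity function of a list of vectors. -/
noncomputable def lamL {K : Type*} [Field K] {p : ℕ} (l : List (Fin p → K))
    (X : Finset (Fin l.length)) : ℕ :=
  rkS l X + rkS l Xᶜ - p

/-- The window of `z` at positions `i, …, i+n-1` of lists of length `m`: the space spanned by the
functions of the middle bits obtained by fixing the outer bits. -/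
def Usp {K : Type*} [Field K] (z : List Bool → K) (m i n : ℕ) : Submodule K (List Bool → K) :=
  Submodule.span K {f | ∃ xs zs : List Bool, xs.length = i ∧ i + n + zs.length = m ∧
    f = fun bs => if bs.length = n then z (xs ++ bs ++ zs) else 0}

/-- Fixing the bits `sl` on the left and `sr` on the right. -/
def slc {K : Type*} [Field K] (n : ℕ) (sl sr : List Bool) :
    (List Bool → K) →ₗ[K] (List Bool → K) where
  toFun f := fun bs => if bs.length = n then f (sl ++ bs ++ sr) else 0
  map_add' f g := by
    funext bs
    by_cases h : bs.length = n <;> simp [h]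
  map_smul' c f := by
    funext bs
    by_cases h : bs.length = n <;> simp [h]

/-- `B` is a basis family with `r` members of `U` (and zero from `r` on). -/
def BF {K : Type*} [Field K] {D : ℕ} (B : Fin D → List Bool → K)
    (U : Submodule K (List Bool → K)) (r : ℕ) : Prop :=
  (∀ a : Fin D, r ≤ (a : ℕ) → B a = 0) ∧
    LinearIndependent K (fun a : {a : Fin D // (a : ℕ) < r} => B a) ∧
    Submodule.span K (Set.range B) = U

/-! ## Decorated binary trees -/

/-- Rooted planar binary trees with a label (a natural number) and a decoration at every node. -/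
inductive Tr (X : Type*)
  | leaf (k : ℕ) (x : X) : Tr X
  | node (k : ℕ) (x : X) (a b : Tr X) : Tr X

namespace Tr
variable {X Y : Type*}

/-- The label of the root. -/
def lab : Tr X → ℕ
  | leaf k _ => k
  | node k _ _ _ => k

/-- The number of leaves. -/
def leaves : Tr X → ℕ
  | leaf _ _ => 1
  | node _ _ a b => a.leaves + b.leaves

/-- The number of nodes. -/
def size : Tr X → ℕ
  | leaf _ _ => 1
  | node _ _ a b => 1 + a.size + b.size

/-- Changing the decorations. -/
def map (g : X → Y) : Tr X → Tr Y
  | leaf k x => leaf k (g x)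
  | node k x a b => node k (g x) (a.map g) (b.map g)

/-- All labels are at most `w`. -/
def LabLe (w : ℕ) : Tr X → Prop
  | leaf k _ => k ≤ w
  | node k _ a b => k ≤ w ∧ a.LabLe w ∧ b.LabLe w

/-- Decorating a tree by the values of `φ` at the preorder numbers of its nodes. -/
def deco : Tr Unit → (ℕ → Y) → Tr Y
  | leaf k _, φ => leaf k (φ 0)
  | node k _ a b, φ => node k (φ 0) (a.deco fun n => φ (1 + n)) (b.deco fun n => φ (1 + a.size + n))

/-- `Sub s t`: `s` is the subtree at some node of `t`. -/
inductive Sub : Tr X → Tr X → Prop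
  | refl (t : Tr X) : Sub t t
  | left {s a : Tr X} (k : ℕ) (x : X) (b : Tr X) : Sub s a → Sub s (node k x a b)
  | right {s b : Tr X} (k : ℕ) (x : X) (a : Tr X) : Sub s b → Sub s (node k x a b)

/-- `Dn k t f`: going down from `t` through nodes of labels `> k` one reaches `f`, whose label
is `k` (possibly `f = t`). -/
inductive Dn (k : ℕ) : Tr X → Tr X → Prop
  | here (f : Tr X) : f.lab = k → Dn k f f
  | left {a f : Tr X} (l : ℕ) (x : X) (b : Tr X) : k < l → Dn k a f → Dn k (node l x a b) f
  | right {b f : Tr X} (l : ℕ) (x : X) (a : Tr X) : k < l → Dn k b f → Dn k (node l x a b) f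

/-- `Step t f`: `f` is a proper subtree of `t` with the same label, all labels strictly between
being larger. -/
inductive Step : Tr X → Tr X → Prop
  | left {a f : Tr X} (k : ℕ) (x : X) (b : Tr X) : Dn k a f → Step (node k x a b) f
  | right {b f : Tr X} (k : ℕ) (x : X) (a : Tr X) : Dn k b f → Step (node k x a b) f

/-- Gap embedding. -/
inductive Emb (R : X → Y → Prop) : Tr X → Tr Y → Prop
  | leaf (k : ℕ) (x : X) (y : Y) : R x y → Emb R (leaf k x) (leaf k y)
  | node (k : ℕ) (x : X) (y : Y) (a b : Tr X) (c d : Tr Y) : R x y → Emb R a c → Emb R b d →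
      Emb R (node k x a b) (node k y c d)
  | skip (s : Tr X) (t f : Tr Y) : Step t f → Emb R s f → Emb R s t

end Tr

/-- The variables at a node. -/
abbrev Var (w : ℕ) : Type := Fin (2 ^ w) × Fin (2 ^ w) × Fin (2 ^ w) × Bool

/-- Index `0`. -/
def zi (w : ℕ) : Fin (2 ^ w) := ⟨0, Nat.two_pow_pos w⟩

/-- Contraction of the tree tensor network. -/
noncomputable def ev {K : Type*} [Field K] (w : ℕ) :
    Tr (Var w → K) → Fin (2 ^ w) → List Bool → K
  | .leaf _ x, α, bs => match bs with
    | [e] => x (α, zi w, zi w, e)
    | _ => 0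
  | .node _ x a b, α, bs => ∑ β, ∑ γ, x (α, β, γ, false) *
      ev w a β (bs.take a.leaves) * ev w b γ (bs.drop a.leaves)

/-- A good tree: for every node `e` and every node `f` with `Step e f` some choice of the bits
outside `f` makes the tensor of `e` equal to that of `f`. -/
def Good {K : Type*} [Field K] {w : ℕ} (t : Tr (Var w → K)) : Prop :=
  ∀ e f, Tr.Sub e t → Tr.Step e f → ∃ sl sr : List Bool,
    sl.length + f.leaves + sr.length = e.leaves ∧
    ∀ α (bs : List Bool), bs.length = f.leaves → ev w e α (sl ++ bs ++ sr) = ev w f α bs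

/-- Filling the blanks of a pattern. -/
def fill : List (Option Bool) → List Bool → List Bool
  | none :: p, b :: bs => b :: fill p bs
  | some c :: p, bs => c :: fill p bs
  | _, _ => []

/-! ## Occurrences with offsets -/

namespace Tr

/-- `SubO t i s j`: `s` is a subtree of `t`; if the leaves of `t` start at `i`, those of `s` start
at `j`. -/
inductive SubO {X : Type*} : Tr X → ℕ → Tr X → ℕ → Prop
  | refl (t : Tr X) (i : ℕ) : SubO t i t i
  | left {s a : Tr X} {i j : ℕ} (k : ℕ) (x : X) (b : Tr X) : SubO a i s j →
      SubO (node k x a b) i s j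
  | right {s b : Tr X} {i j : ℕ} (k : ℕ) (x : X) (a : Tr X) : SubO b (i + a.leaves) s j →
      SubO (node k x a b) i s j

/-- `Dn` with offsets. -/
inductive DnO {X : Type*} (k : ℕ) : Tr X → ℕ → Tr X → ℕ → Prop
  | here (f : Tr X) (i : ℕ) : f.lab = k → DnO k f i f i
  | left {a f : Tr X} {i j : ℕ} (l : ℕ) (x : X) (b : Tr X) : k < l → DnO k a i f j →
      DnO k (node l x a b) i f j
  | right {b f : Tr X} {i j : ℕ} (l : ℕ) (x : X) (a : Tr X) : k < l →
      DnO k b (i + a.leaves) f j → DnO k (node l x a b) i f j

/-- `Step` with offsets. -/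
inductive StepO {X : Type*} : Tr X → ℕ → Tr X → ℕ → Prop
  | left {a f : Tr X} {i j : ℕ} (k : ℕ) (x : X) (b : Tr X) : DnO k a i f j →
      StepO (node k x a b) i f j
  | right {b f : Tr X} {i j : ℕ} (k : ℕ) (x : X) (a : Tr X) : DnO k b (i + a.leaves) f j →
      StepO (node k x a b) i f j

end Tr

/-! ## Trees on a ground set -/

/-- Rooted binary trees with leaves in `E`. -/
inductive BT (E : Type*)
  | leaf (e : E) : BT E
  | node (a b : BT E) : BT E

namespace BT
variable {E : Type*} [DecidableEq E]

/-- The displayed set of the root. -/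
def set : BT E → Finset E
  | leaf e => {e}
  | node a b => a.set ∪ b.set

/-- The leaves from left to right. -/
def list : BT E → List E
  | leaf e => [e]
  | node a b => a.list ++ b.list

/-- Different leaves have different elements. -/
def Disj : BT E → Prop
  | leaf _ => True
  | node a b => Disjoint a.set b.set ∧ a.Disj ∧ b.Disj

/-- All displayed sets have `lam ≤ w`. -/
def WLe (lam : Finset E → ℕ) (w : ℕ) : BT E → Prop
  | leaf e => lam {e} ≤ w
  | node a b => lam (a.set ∪ b.set) ≤ w ∧ a.WLe lam w ∧ b.WLe lam w

/-- Subtrees. -/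
inductive Sub : BT E → BT E → Prop
  | refl (t : BT E) : Sub t t
  | left {s a : BT E} (b : BT E) : Sub s a → Sub s (node a b)
  | right {s b : BT E} (a : BT E) : Sub s b → Sub s (node a b)

/-- Going down through nodes with `lam > k` to a node with `lam = k`. -/
inductive Dn (lam : Finset E → ℕ) (k : ℕ) : BT E → BT E → Prop
  | here (f : BT E) : lam f.set = k → Dn lam k f f
  | left {a f : BT E} (b : BT E) : k < lam (a.set ∪ b.set) → Dn lam k a f →
      Dn lam k (node a b) f
  | right {b f : BT E} (a : BT E) : k < lam (a.set ∪ b.set) → Dn lam k b f →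
      Dn lam k (node a b) f

/-- `f` is a proper subtree of `t` with the same `lam`, the values strictly between being larger. -/
inductive Step (lam : Finset E → ℕ) : BT E → BT E → Prop
  | left {a f : BT E} (b : BT E) : Dn lam (lam (a.set ∪ b.set)) a f → Step lam (node a b) f
  | right {b f : BT E} (a : BT E) : Dn lam (lam (a.set ∪ b.set)) b f → Step lam (node a b) f

/-- Linked trees. -/
def Linked (lam : Finset E → ℕ) (t : BT E) : Prop :=
  ∀ e f, Sub e t → Step lam e f → ∀ Y, f.set ⊆ Y → Y ⊆ e.set → lam e.set ≤ lam Y

/-- The skeleton: the tree with the labels `lam`. -/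
def skel (lam : Finset E → ℕ) : BT E → Tr Unit
  | leaf e => .leaf (lam {e}) ()
  | node a b => .node (lam (a.set ∪ b.set)) () (a.skel lam) (b.skel lam)

/-- Weights. -/
def gW (k l : ℕ) : ℕ := if k ≤ l then 4 ^ (2 * l + 1) else 0

/-- Weights. -/
def hW (k l : ℕ) : ℕ := if k ≤ l then 4 ^ (2 * l) else 0

/-- The potential of a tree at level `k`; `q` is the value of `lam` at the parent. -/
def psi (lam : Finset E → ℕ) (k : ℕ) : ℕ → BT E → ℕ
  | q, leaf e => gW k (lam {e}) + hW k (min (lam {e}) q)
  | q, node a b => gW k (lam (a.set ∪ b.set)) + hW k (min (lam (a.set ∪ b.set)) q) +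
      psi lam k (lam (a.set ∪ b.set)) a + psi lam k (lam (a.set ∪ b.set)) b

/-- Restriction to the leaves in `Y`. -/
def res (Y : Finset E) : BT E → Option (BT E)
  | leaf e => if e ∈ Y then some (leaf e) else none
  | node a b => match a.res Y, b.res Y with
    | some a', some b' => some (node a' b')
    | some a', none => some a'
    | none, some b' => some b'
    | none, none => none

end BT

/-! ## Morphisms of skeletons, tensors of forms -/

/-- Extension of a map by `0`. -/
def ext {N M : ℕ} (φ : Fin N → Fin M) (n : ℕ) : ℕ := if h : n < N then (φ ⟨n, h⟩ : ℕ) else 0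

/-- Extension by zero of a family of decorations. -/
def dat {K W : Type*} [Zero K] {N : ℕ} (V : Fin N × W → K) (n : ℕ) (v : W) : K :=
  if h : n < N then V (⟨n, h⟩, v) else 0

/-- The maps of preorder numbers given by gap embeddings. -/
def Hom (σ τ : Tr Unit) : Set (Fin σ.size → Fin τ.size) :=
  {φ | Tr.Emb (fun a b : ℕ => a = b) (σ.deco (ext φ)) (τ.deco id)}

/-- The tensor of a form along a list of indices. -/
noncomputable def ft {I K : Type*} [Zero K] {p : ℕ} (ω : (Fin p → I) → K) (L : List I)
    (b : List Bool) : K :=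
  if b.length = L.length then
    (if h : (sel L b).length = p then ω (fun j => (sel L b).get (Fin.cast h.symm j)) else 0)
  else 0

/-- The sign of the arrangement of the members of `ρ` selected by the bits. -/
def sgnl {K : Type*} [CommRing K] {m : ℕ} : List (Fin m) → List Bool → K
  | i :: ρ, true :: b => (-1) ^ ((sel ρ b).countP fun j => decide (j < i)) * sgnl ρ b
  | _ :: ρ, false :: b => sgnl ρ b
  | _, _ => 1

/-- Rearranging the positions of a tensor of order `m`, with signs. -/
def iact {K : Type*} [CommRing K] {m : ℕ} (ρ : List (Fin m)) (z : List Bool → K)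
    (b : List Bool) : K :=
  if b.length = m then
    sgnl ρ (ρ.map fun i : Fin m => b.getD i.val false) *
      z (ρ.map fun i : Fin m => b.getD i.val false)
  else 0

/-- The tensors of order `m` of the members of `C`. -/
def TensOf {K : Type*} [Field K] (C : Set (Pt K)) (m : ℕ) : Set (List Bool → K) :=
  {z | z = 0 ∨ ∃ x ∈ C, ∃ n p : ℕ, n + p = m ∧ ∃ L : List (Ix n p), L.Nodup ∧ L.length = m ∧
    z = ft (x.x n p) L}

/-- The window `j, …, j+n'-1` is linked to the window `i, …, i+n-1` around it. -/
def LinkOK {K : Type*} [Field K] (z : List Bool → K) (m i n j n' : ℕ) : Prop :=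
  ∃ sl sr : List Bool, i + sl.length = j ∧ sl.length + n' + sr.length = n ∧
    (Usp z m i n).map (slc n' sl sr) = Usp z m j n'

/-- Systems of sets of tensors. -/
structure Sys {K : Type*} [Field K] (w : ℕ) (Y : ℕ → ℕ → Set (List Bool → K)) : Prop where
  anti : ∀ j m, Y (j + 1) m ⊆ Y j m
  zero : ∀ j m, 0 ∈ Y j m
  len : ∀ j m z b, z ∈ Y j m → b.length ≠ m → z b = 0
  slice : ∀ (j m i : ℕ) (c : Bool) (z : List Bool → K), i ≤ m → z ∈ Y j (m + 1) →
    (fun b => if b.length = m then z (b.take i ++ c :: b.drop i) else 0) ∈ Y j m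
  act : ∀ (j m : ℕ) (ρ : List (Fin m)) (z : List Bool → K), ρ.Nodup → ρ.length = m →
    z ∈ Y j m → iact ρ z ∈ Y j m
  rep : ∀ (j m : ℕ) (z : List Bool → K), 1 ≤ m → z ∈ Y j m → z ≠ 0 →
    ∃ (p : ℕ) (c : K) (l : List (Fin p → K)), c ≠ 0 ∧ l.length = m ∧ rkl l = p ∧
      Dec (lamL l) w Finset.univ ∧ (z = fun b => c * plu l b) ∧
      ∀ ρ : List (Fin l.length), ρ.Nodup → ρ.length = l.length →
        (fun b => c * plu (ρ.map l.get) b) ∈ Y j m

/-- Symmetric submodular functions. -/
structure SymSub {E : Type*} [Fintype E] [DecidableEq E] (lam : Finset E → ℕ) : Prop where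
  symm : ∀ X, lam Xᶜ = lam X
  submod : ∀ X Y, lam (X ∩ Y) + lam (X ∪ Y) ≤ lam X + lam Y

end Pool.Agent.Helper64.IG
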